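import Pool.Agent.Q202.CCov.Data

set_option autoImplicit false

/-!
# The combinatorial lemma
-/

namespace Q202.CCov

theorem rowB_congr {b b' : ℕ → Bool} (h : ∀ t < 25, b t = b' t) (i : ℕ) (l : List ℕ) :
    rowB b i l = rowB b' i l := by
  induction l with
  | nil => rfl
  | cons z l ih => rw [rowB, rowB, ih, h _ (Nat.mod_lt _ (by norm_num))]

theorem cst_testBit {j : ℕ} (hj : j < 2 ^ 16) (c : Bool) : (cst c).testBit j = c := by
  cases c
  · simp [cst]
  · exact full_testBit hj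

theorem exists_index1 (b : ℕ → Bool) (h5 : b 5 = false)
    (hs : ∀ r < 5, b (r + 20) = xor (b r) (xor (b (r + 5)) (xor (b (r + 10)) (b (r + 15))))) :
    ∃ j < 2 ^ 16, ∀ t < 25, (X1 (b 0) (b 10) (b 15) t).testBit j = b t := by
  let P : List ℕ := [1, 2, 3, 4, 6, 7, 8, 9, 11, 12, 13, 14, 16, 17, 18, 19]
  let f : Fin 16 → Bool := fun i => b (P.getD i.1 0)
  have hj : Nat.ofBits f < 2 ^ 16 := Nat.ofBits_lt_two_pow f
  have ht : ∀ i (hi : i < 16), (tt 16 i).testBit (Nat.ofBits f) = b (P.getD i 0) := by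
    intro i hi
    rw [testBit_tt 16 i _ hi hj, Nat.testBit_ofBits_lt f i hi]
  have h0 := ht 0 (by norm_num)
  have h1 := ht 1 (by norm_num)
  have h2 := ht 2 (by norm_num)
  have h3 := ht 3 (by norm_num)
  have h4 := ht 4 (by norm_num)
  have h5' := ht 5 (by norm_num)
  have h6 := ht 6 (by norm_num)
  have h7 := ht 7 (by norm_num)
  have h8 := ht 8 (by norm_num)
  have h9 := ht 9 (by norm_num)
  have h10 := ht 10 (by norm_num)
  have h11 := ht 11 (by norm_num)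
  have h12 := ht 12 (by norm_num)
  have h13 := ht 13 (by norm_num)
  have h14 := ht 14 (by norm_num)
  have h15 := ht 15 (by norm_num)
  simp only [P, List.getD_cons_zero, List.getD_cons_succ] at h0 h1 h2 h3 h4 h5' h6 h7 h8 h9 h10 h11 h12 h13 h14 h15
  have hs0 := hs 0 (by norm_num)
  have hs1 := hs 1 (by norm_num)
  have hs2 := hs 2 (by norm_num)
  have hs3 := hs 3 (by norm_num)
  have hs4 := hs 4 (by norm_num)
  norm_num at hs0 hs1 hs2 hs3 hs4
  refine ⟨Nat.ofBits f, hj, fun t ht' => ?_⟩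
  have hc := cst_testBit hj
  interval_cases t <;>
    simp only [X1, tab1, List.getD_cons_zero, List.getD_cons_succ, hc, h0, h1, h2, h3, h4, h5', h6, h7, h8,
      h9, h10, h11, h12, h13, h14, h15, h5, Nat.zero_testBit, Nat.testBit_xor, hs0, hs1, hs2, hs3, hs4,
      Bool.false_xor]

/-- One function that is not symmetric. -/
theorem comb1 (b : ℕ → Bool) (h5 : b 5 = false)
    (hs : ∀ r < 5, b (r + 20) = xor (b r) (xor (b (r + 5)) (xor (b (r + 10)) (b (r + 15)))))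
    (hn : ¬ ∀ t ∈ [1, 2, 3, 4, 5, 6, 7, 8, 9, 10, 11, 12], b t = b (25 - t)) :
    ∃ Z ∈ zs1, ∀ i ∈ Z, rowB b i Z = true := by
  obtain ⟨j, hj, hX⟩ := exists_index1 b h5 hs
  have h := chk1 (b 0) (b 10) (b 15)
  unfold Chk1 at h
  have h1 := full_testBit hj
  have h2 : F16.testBit j = true := h1
  rw [← h] at h2
  rw [Nat.testBit_or, Bool.or_eq_true] at h2
  rcases h2 with h2 | h2
  · obtain ⟨Z, hZ, hZ'⟩ := anyc_testBit _ _ _ _ h2
    refine ⟨Z, hZ, fun i hi => ?_⟩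
    rw [← hZ' i hi]
    exact (rowB_congr (fun t ht => hX t ht) i Z).symm
  · exfalso
    apply hn
    intro t ht
    rw [Nat.testBit_xor] at h2
    have h3 : F16.testBit j = true := h1
    rw [h3] at h2
    have h4 : (orl (fun t => X1 (b 0) (b 10) (b 15) t ^^^ X1 (b 0) (b 10) (b 15) (25 - t))
      [1, 2, 3, 4, 5, 6, 7, 8, 9, 10, 11, 12]).testBit j ≠ true := by
      intro h5
      rw [h5] at h2
      simp at h2
    rw [Ne, orl_testBit] at h4
    push Not at h4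
    have h5 := h4 t ht
    rw [Nat.testBit_xor, hX t (by simp at ht; omega), hX (25 - t) (by simp at ht; omega)] at h5
    revert h5
    cases b t <;> cases b (25 - t) <;> simp

theorem exists_index2 (b c : ℕ → Bool) (hb5 : b 5 = false) (hc5 : c 5 = false)
    (hbs : ∀ r < 5, b (r + 20) = xor (b r) (xor (b (r + 5)) (xor (b (r + 10)) (b (r + 15)))))
    (hcs : ∀ r < 5, c (r + 20) = xor (c r) (xor (c (r + 5)) (xor (c (r + 10)) (c (r + 15)))))
    (hb : ∀ t ∈ [1, 2, 3, 4, 5, 6, 7, 8, 9, 10, 11, 12], b t = b (25 - t))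
    (hc : ∀ t ∈ [1, 2, 3, 4, 5, 6, 7, 8, 9, 10, 11, 12], c t = c (25 - t)) :
    ∃ j < 2 ^ 18, (∀ t < 25, (X2 t).testBit j = b t) ∧ ∀ t < 25, (Y2 t).testBit j = c t := by
  let P : List ℕ := [10, 1, 6, 11, 16, 2, 7, 12, 17]
  let f : Fin 18 → Bool := fun i => if i.1 < 9 then b (P.getD i.1 0) else c (P.getD (i.1 - 9) 0)
  have hj : Nat.ofBits f < 2 ^ 18 := Nat.ofBits_lt_two_pow f
  have ht : ∀ i (hi : i < 18), (tt 18 i).testBit (Nat.ofBits f) =
      if i < 9 then b (P.getD i 0) else c (P.getD (i - 9) 0) := by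
    intro i hi
    rw [testBit_tt 18 i _ hi hj, Nat.testBit_ofBits_lt f i hi]
  have h0 := ht 0 (by norm_num)
  have h1 := ht 1 (by norm_num)
  have h2 := ht 2 (by norm_num)
  have h3 := ht 3 (by norm_num)
  have h4 := ht 4 (by norm_num)
  have h5 := ht 5 (by norm_num)
  have h6 := ht 6 (by norm_num)
  have h7 := ht 7 (by norm_num)
  have h8 := ht 8 (by norm_num)
  have h9 := ht 9 (by norm_num)
  have h10 := ht 10 (by norm_num)
  have h11 := ht 11 (by norm_num)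
  have h12 := ht 12 (by norm_num)
  have h13 := ht 13 (by norm_num)
  have h14 := ht 14 (by norm_num)
  have h15 := ht 15 (by norm_num)
  have h16 := ht 16 (by norm_num)
  have h17 := ht 17 (by norm_num)
  norm_num [P] at h0 h1 h2 h3 h4 h5 h6 h7 h8 h9 h10 h11 h12 h13 h14 h15 h16 h17
  have key : ∀ d : ℕ → Bool, d 5 = false →
      (∀ r < 5, d (r + 20) = xor (d r) (xor (d (r + 5)) (xor (d (r + 10)) (d (r + 15))))) →
      (∀ t ∈ [1, 2, 3, 4, 5, 6, 7, 8, 9, 10, 11, 12], d t = d (25 - t)) → ∀ v : Fin 9 → ℕ,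
      (∀ i : Fin 9, (v i).testBit (Nat.ofBits f) = d (P.getD i.1 0)) → ∀ t < 25,
      ((tab2 (v 0) (v 1) (v 2) (v 3) (v 4) (v 5) (v 6) (v 7) (v 8)).getD t 0).testBit (Nat.ofBits f) =
        d t := by
    intro d hd5 hds hd v hv t ht'
    have g0 := hv 0
    have g1 := hv 1
    have g2 := hv 2
    have g3 := hv 3
    have g4 := hv 4
    have g5 := hv 5
    have g6 := hv 6
    have g7 := hv 7
    have g8 := hv 8
    norm_num [P] at g0 g1 g2 g3 g4 g5 g6 g7 g8
    have e1 := hd 1 (by simp)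
    have e2 := hd 2 (by simp)
    have e3 := hd 3 (by simp)
    have e4 := hd 4 (by simp)
    have e5 := hd 5 (by simp)
    have e6 := hd 6 (by simp)
    have e7 := hd 7 (by simp)
    have e8 := hd 8 (by simp)
    have e9 := hd 9 (by simp)
    have e10 := hd 10 (by simp)
    have e11 := hd 11 (by simp)
    have e12 := hd 12 (by simp)
    have s0 := hds 0 (by norm_num)
    have s1 := hds 1 (by norm_num)
    have s2 := hds 2 (by norm_num)
    norm_num at s0 s1 s2 e1 e2 e3 e4 e5 e6 e7 e8 e9 e10 e11 e12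
    rw [hd5] at e5
    have e0 : d 0 = false := by
      rw [← e5, hd5, ← e10] at s0
      revert s0
      cases d 0 <;> cases d 10 <;> simp
    interval_cases t <;>
      simp only [tab2, List.getD_cons_zero, List.getD_cons_succ, g0, g1, g2, g3, g4, g5, g6, g7, g8,
        Nat.zero_testBit, Nat.testBit_xor, e0, hd5, ← e5, ← e1, ← e2, ← e6, ← e7, ← e10, ← e11, ← e12,
        e3, e4, e8, e9, s1, s2]
  refine ⟨Nat.ofBits f, hj, ?_, ?_⟩
  · intro t ht'
    refine key b hb5 hbs hb (fun i => tt 18 i.1) (fun i => ?_) t ht'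
    rw [ht i.1 (by omega), if_pos i.2]
  · intro t ht'
    have := key c hc5 hcs hc (fun i => tt 18 (i.1 + 9)) (fun i => ?_) t ht'
    · exact this
    · rw [ht (i.1 + 9) (by omega), if_neg (by omega)]
      simp

/-- Two symmetric functions. -/
theorem comb2 (b c : ℕ → Bool) (hb5 : b 5 = false) (hc5 : c 5 = false)
    (hbs : ∀ r < 5, b (r + 20) = xor (b r) (xor (b (r + 5)) (xor (b (r + 10)) (b (r + 15)))))
    (hcs : ∀ r < 5, c (r + 20) = xor (c r) (xor (c (r + 5)) (xor (c (r + 10)) (c (r + 15)))))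
    (hb : ∀ t ∈ [1, 2, 3, 4, 5, 6, 7, 8, 9, 10, 11, 12], b t = b (25 - t))
    (hc : ∀ t ∈ [1, 2, 3, 4, 5, 6, 7, 8, 9, 10, 11, 12], c t = c (25 - t))
    (nb : ∃ t ∈ [1, 2, 3, 4, 5, 6, 7, 8, 9, 10, 11, 12], b t = true)
    (nc : ∃ t ∈ [1, 2, 3, 4, 5, 6, 7, 8, 9, 10, 11, 12], c t = true)
    (nbc : ∃ t ∈ [1, 2, 3, 4, 5, 6, 7, 8, 9, 10, 11, 12], b t ≠ c t) :
    ∃ Z ∈ zs2, ∀ i ∈ Z, rowB b i Z = true ∨ rowB c i Z = true := by
  obtain ⟨j, hj, hX, hY⟩ := exists_index2 b c hb5 hc5 hbs hcs hb hc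
  have hlt : ∀ t ∈ [1, 2, 3, 4, 5, 6, 7, 8, 9, 10, 11, 12], t < 25 := by decide
  have h := chk2
  have h1 : F18.testBit j = true := full_testBit hj
  have h2 := h1
  rw [← h] at h2
  rw [Nat.testBit_or, Bool.or_eq_true] at h2
  rcases h2 with h2 | h2
  · obtain ⟨Z, hZ, hZ'⟩ := anyc2_testBit _ _ _ _ _ h2
    refine ⟨Z, hZ, fun i hi => ?_⟩
    rw [← rowB_congr (fun t ht => hX t ht) i Z, ← rowB_congr (fun t ht => hY t ht) i Z]
    exact hZ' i hi
  · exfalso
    rw [Nat.testBit_xor, h1, Nat.testBit_and, Nat.testBit_and] at h2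
    have g1 : (orl X2 [1, 2, 3, 4, 5, 6, 7, 8, 9, 10, 11, 12]).testBit j = true := by
      rw [orl_testBit]
      obtain ⟨t, ht, hbt⟩ := nb
      exact ⟨t, ht, by rw [hX t (hlt t ht), hbt]⟩
    have g2 : (orl Y2 [1, 2, 3, 4, 5, 6, 7, 8, 9, 10, 11, 12]).testBit j = true := by
      rw [orl_testBit]
      obtain ⟨t, ht, hbt⟩ := nc
      exact ⟨t, ht, by rw [hY t (hlt t ht), hbt]⟩
    have g3 : (orl (fun t => X2 t ^^^ Y2 t) [1, 2, 3, 4, 5, 6, 7, 8, 9, 10, 11, 12]).testBit j = true := by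
      rw [orl_testBit]
      obtain ⟨t, ht, hbt⟩ := nbc
      refine ⟨t, ht, ?_⟩
      rw [Nat.testBit_xor, hX t (hlt t ht), hY t (hlt t ht)]
      revert hbt
      cases b t <;> cases c t <;> simp
    rw [g1, g2, g3] at h2
    simp at h2

/-- **The combinatorial lemma.** -/
theorem comb (b c : ℕ → Bool) (hb5 : b 5 = false) (hc5 : c 5 = false)
    (hbs : ∀ r < 5, b (r + 20) = xor (b r) (xor (b (r + 5)) (xor (b (r + 10)) (b (r + 15)))))
    (hcs : ∀ r < 5, c (r + 20) = xor (c r) (xor (c (r + 5)) (xor (c (r + 10)) (c (r + 15)))))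
    (nb : ∃ t < 25, b t = true) (nc : ∃ t < 25, c t = true) (nbc : ∃ t < 25, b t ≠ c t) :
    ∃ Z, valid Z = true ∧ ∀ i ∈ Z, rowB b i Z = true ∨ rowB c i Z = true := by
  have hv : ∀ Z ∈ zs1 ++ zs2, valid Z = true := by
    have := valid_all
    rwa [List.all_eq_true] at this
  by_cases hb : ∀ t ∈ [1, 2, 3, 4, 5, 6, 7, 8, 9, 10, 11, 12], b t = b (25 - t)
  swap
  · obtain ⟨Z, hZ, h⟩ := comb1 b hb5 hbs hb
    exact ⟨Z, hv Z (List.mem_append_left _ hZ), fun i hi => Or.inl (h i hi)⟩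
  by_cases hc : ∀ t ∈ [1, 2, 3, 4, 5, 6, 7, 8, 9, 10, 11, 12], c t = c (25 - t)
  swap
  · obtain ⟨Z, hZ, h⟩ := comb1 c hc5 hcs hc
    exact ⟨Z, hv Z (List.mem_append_left _ hZ), fun i hi => Or.inr (h i hi)⟩
  have zero : ∀ d : ℕ → Bool, d 5 = false →
      (∀ r < 5, d (r + 20) = xor (d r) (xor (d (r + 5)) (xor (d (r + 10)) (d (r + 15))))) →
      (∀ t ∈ [1, 2, 3, 4, 5, 6, 7, 8, 9, 10, 11, 12], d t = d (25 - t)) → d 0 = false := by
    intro d hd5 hds hd
    have e5 := hd 5 (by simp)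
    have e10 := hd 10 (by simp)
    have s0 := hds 0 (by norm_num)
    norm_num at s0 e5 e10
    rw [← e5, hd5, ← e10] at s0
    revert s0
    cases d 0 <;> cases d 10 <;> simp
  have mem : ∀ t < 25, t = 0 ∨ t ∈ [1, 2, 3, 4, 5, 6, 7, 8, 9, 10, 11, 12] ∨
      25 - t ∈ [1, 2, 3, 4, 5, 6, 7, 8, 9, 10, 11, 12] := by decide
  have sub : ∀ t < 25, 25 - (25 - t) = t := by intro t ht; omega
  obtain ⟨Z, hZ, h⟩ := comb2 b c hb5 hc5 hbs hcs hb hc
    (by
      obtain ⟨t, ht, h⟩ := nb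
      rcases mem t ht with rfl | h1 | h1
      · rw [zero b hb5 hbs hb] at h
        simp at h
      · exact ⟨t, h1, h⟩
      · exact ⟨25 - t, h1, by rw [hb _ h1, sub t ht, h]⟩)
    (by
      obtain ⟨t, ht, h⟩ := nc
      rcases mem t ht with rfl | h1 | h1
      · rw [zero c hc5 hcs hc] at h
        simp at h
      · exact ⟨t, h1, h⟩
      · exact ⟨25 - t, h1, by rw [hc _ h1, sub t ht, h]⟩)
    (by
      obtain ⟨t, ht, h⟩ := nbc
      rcases mem t ht with rfl | h1 | h1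
      · rw [zero b hb5 hbs hb, zero c hc5 hcs hc] at h
        simp at h
      · exact ⟨t, h1, h⟩
      · exact ⟨25 - t, h1, by rw [hb _ h1, hc _ h1, sub t ht]; exact h⟩)
  exact ⟨Z, hv Z (List.mem_append_right _ hZ), h⟩

end Q202.CCov
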