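import Pool.Agent.Q202.CCov.Tab

set_option autoImplicit false

/-!
# Lists of sets of zeros and the kernel computations
-/

namespace Q202.CCov

/-- Sets of zeros for one function. -/
def zs1 : List (List ℕ) :=
  [[0,1,2,3,4], [0,2,3,4,6], [0,1,3,4,7], [0,3,4,6,7], [0,1,2,4,8], [0,2,4,6,8], [0,1,4,7,8], [0,4,6,7,8], 
   [0,1,2,3,9], [0,2,3,6,9], [0,1,3,7,9], [0,3,6,7,9], [0,1,2,8,9], [0,2,6,8,9], [0,1,7,8,9], [0,6,7,8,9], 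
   [0,2,3,4,11], [0,3,4,7,11], [0,2,4,8,11], [0,4,7,8,11], [0,2,3,9,11], [0,3,7,9,11], [0,2,8,9,11], [0,7,8,9,11], 
   [0,1,3,4,12], [0,3,4,6,12], [0,1,4,8,12], [0,4,6,8,12], [0,1,3,9,12], [0,3,6,9,12], [0,1,8,9,12], [0,6,8,9,12], 
   [0,3,4,11,12], [0,4,8,11,12], [0,3,9,11,12], [0,8,9,11,12], [0,1,2,4,13], [0,2,4,6,13], [0,1,4,7,13], 
   [0,4,6,7,13], [0,1,2,9,13], [0,2,6,9,13], [0,1,7,9,13], [0,6,7,9,13], [0,2,4,11,13], [0,4,7,11,13], 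
   [0,2,9,11,13], [0,7,9,11,13], [0,1,4,12,13], [0,4,6,12,13], [0,1,9,12,13], [0,6,9,12,13], [0,4,11,12,13], 
   [0,9,11,12,13], [0,1,2,3,14], [0,2,3,6,14], [0,1,3,7,14], [0,3,6,7,14], [0,1,2,8,14], [0,2,6,8,14], 
   [0,1,7,8,14], [0,6,7,8,14], [0,2,3,11,14], [0,3,7,11,14], [0,2,8,11,14], [0,7,8,11,14], [0,1,3,12,14], 
   [0,3,6,12,14], [0,1,8,12,14], [0,6,8,12,14], [0,3,11,12,14], [0,8,11,12,14], [0,1,2,13,14], [0,2,6,13,14], 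
   [0,1,7,13,14], [0,6,7,13,14], [0,2,11,13,14], [0,7,11,13,14], [0,6,12,13,14], [0,3,4,7,16], [0,2,4,8,16], 
   [0,4,7,8,16], [0,2,3,9,16], [0,3,7,9,16], [0,2,8,9,16], [0,7,8,9,16], [0,3,4,12,16], [0,4,8,12,16], 
   [0,3,9,12,16], [0,8,9,12,16], [0,2,4,13,16], [0,4,7,13,16], [0,2,9,13,16], [0,7,9,13,16], [0,4,12,13,16], 
   [0,3,7,14,16], [0,2,8,14,16], [0,7,8,14,16], [0,8,12,14,16], [0,7,13,14,16], [0,1,3,9,17], [0,3,6,9,17], 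
   [0,1,8,9,17], [0,6,8,9,17], [0,3,4,11,17], [0,4,8,11,17], [0,3,9,11,17], [0,4,6,13,17], [0,1,9,13,17], 
   [0,6,9,13,17], [0,4,11,13,17], [0,3,6,14,17], [0,1,8,14,17], [0,6,8,14,17], [0,6,13,14,17], [0,3,9,16,17], 
   [0,2,4,11,18], [0,4,7,11,18], [0,2,9,11,18], [0,4,6,12,18], [0,6,9,12,18], [0,4,11,12,18], [0,6,7,14,18], 
   [0,6,12,14,18], [0,1,7,13,19], [0,2,4,5,6,8,10], [0,4,7,9,11,14,18], [0,1,2,7,12,13,14], [0,1,5,9,10,17,18], 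
   [0,3,6,9,12,15,20], [0,1,2,5,8,9,10], [0,2,3,8,13,14,16], [0,3,5,7,10,16,19], [0,2,6,7,8,12,14], 
   [0,4,7,8,11,15,20], [0,1,3,4,6,7,11], [0,1,4,5,10,13,17], [0,2,4,9,11,13,14], [0,3,8,11,13,17,19], 
   [0,5,10,11,12,18,19], [0,1,2,8,9,10,15], [0,4,5,7,8,11,15], [0,1,2,10,13,14,15], [0,1,3,5,12,14,15], 
   [0,2,6,8,12,14,17], [0,3,7,10,15,16,19], [0,6,7,9,11,16,18], [0,5,7,8,9,10,11], [0,3,6,9,10,12,15], 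
   [0,1,4,7,8,14,19], [0,1,5,9,13,17,20], [0,5,6,7,8,9,10], [0,4,5,7,8,10,11], [0,1,2,8,11,16,19], 
   [0,1,3,10,12,14,15], [0,1,3,4,6,7,16], [0,3,5,9,11,15,17], [0,4,7,12,13,16,17], [0,5,6,7,8,14,15], 
   [0,4,7,11,14,18,19], [0,4,8,12,15,16,20], [0,2,3,5,6,9,10], [0,4,5,6,8,10,12], [0,1,2,3,10,14,15], 
   [0,2,5,6,9,15,18], [0,2,5,13,14,15,16], [0,1,6,8,9,16,17], [0,3,5,10,12,14,16], [0,3,4,6,12,13,18], 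
   [0,2,5,10,11,13,19], [0,3,6,11,14,16,17], [0,2,4,9,11,13,19], [0,1,7,12,13,17,19], [0,2,7,11,13,17,19], 
   [0,3,5,7,9,11,15], [0,3,7,8,11,14,18], [0,3,6,7,13,18,19], [0,1,4,9,13,14,17], [0,3,6,8,9,12,18], 
   [0,1,2,3,8,13,14], [0,1,8,10,14,15,17], [0,5,7,9,11,13,15], [0,2,4,6,8,10,15], [0,4,9,11,13,17,19], 
   [0,1,3,11,12,14,16], [0,1,6,11,12,13,14], [0,2,6,9,11,13,16], [0,1,8,9,10,15,17], [0,1,5,10,13,14,17], 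
   [0,1,6,7,11,13,19], [0,1,4,6,7,13,16], [0,1,2,9,10,15,18], [0,2,4,7,13,16,17], [0,5,7,10,13,16,19], 
   [0,3,4,7,10,11,15], [0,7,8,9,10,15,16], [0,5,9,11,13,15,17], [0,2,3,6,9,14,19], [0,1,3,4,5,7,15], 
   [0,3,6,11,12,16,19], [0,4,8,11,14,17,19], [0,4,5,7,11,15,18], [0,1,6,11,12,13,19], [0,4,5,6,7,8,10], 
   [0,2,6,7,12,13,19], [0,1,7,8,9,14,19], [0,2,4,6,7,8,12], [0,4,7,8,9,14,16], [0,2,3,4,11,12,17], 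
   [0,1,4,5,13,15,17], [0,9,10,11,12,13,15], [0,4,7,8,12,16,17], [0,3,4,7,12,16,17], [0,3,6,9,14,17,19], 
   [0,5,6,9,12,15,18], [0,3,7,8,9,11,13], [0,1,10,12,13,14,15], [0,1,6,7,13,14,16], [0,1,4,9,13,17,19], 
   [0,3,4,7,9,11,14], [0,2,3,4,5,6,15], [0,1,2,8,9,11,16], [0,1,3,4,5,7,10], [0,2,3,6,9,10,15], [0,1,2,3,6,9,16], 
   [0,3,8,11,13,14,17], [0,4,7,8,13,16,18], [0,1,5,8,9,10,17], [0,2,7,8,9,16,17], [0,4,6,10,12,13,15], 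
   [0,5,6,7,13,14,15], [0,2,4,5,13,15,16], [0,2,6,7,12,13,14], [0,1,2,11,13,14,16], [0,4,5,10,11,12,18], 
   [0,2,7,11,12,13,19], [0,7,8,9,12,16,17], [0,4,10,13,15,16,17], [0,4,5,7,10,16,18], [0,1,2,7,9,12,13], 
   [0,3,6,7,9,11,16], [0,5,6,9,13,15,17], [0,3,9,10,12,15,16], [0,2,4,7,8,16,17], [0,2,4,9,11,14,18], 
   [0,4,9,11,12,14,18], [0,3,6,9,12,14,19], [0,1,2,3,7,9,12], [0,1,3,5,10,12,14], [0,2,6,9,11,16,18], 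
   [0,4,7,9,14,16,18], [0,1,2,6,8,11,14], [0,2,6,8,10,15,19], [0,1,6,8,12,16,19], [0,1,2,8,9,13,18], 
   [0,6,11,12,14,16,18], [0,1,4,8,13,17,18], [0,3,6,11,16,17,19], [0,1,3,4,7,13,18], [0,2,6,8,11,16,19], 
   [0,2,4,5,8,10,16], [0,1,2,9,11,16,18], [0,2,7,9,11,17,18], [0,1,5,7,9,10,13], [0,1,3,6,11,12,14], 
   [0,3,5,7,10,14,16], [0,4,5,8,10,16,17], [0,1,4,7,10,15,18], [0,4,8,10,12,16,20], [0,4,6,8,10,12,15], 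
   [0,3,6,7,13,14,18], [0,4,7,10,11,15,18], [0,3,8,11,14,17,18], [0,4,6,7,8,11,16], [0,5,8,9,10,12,16], 
   [0,2,8,9,11,12,17], [0,2,7,11,12,18,19], [0,6,7,10,13,14,15], [0,5,9,10,12,13,16], [0,1,2,4,7,13,17], 
   [0,4,6,8,9,14,17], [0,2,5,10,11,14,18], [0,1,2,3,5,14,15], [0,2,3,6,10,14,15], [0,1,5,12,13,14,15], 
   [0,2,3,9,10,15,16], [0,2,5,6,8,9,10], [0,1,5,9,10,13,17], [0,6,9,10,12,15,18], [0,2,5,10,13,16,19], 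
   [0,1,2,5,8,9,15], [0,2,3,4,6,10,15], [0,2,3,4,5,10,16], [0,2,9,11,12,13,17], [0,2,7,8,11,14,17], 
   [0,3,6,7,12,17,19], [0,5,8,10,11,12,14], [0,1,2,3,4,5,15], [0,1,3,7,10,14,15], [0,1,2,3,11,14,16], 
   [0,3,7,11,15,19,20], [0,2,7,8,9,11,12], [0,1,2,4,10,13,15], [0,5,7,8,14,15,16], [0,2,3,6,11,16,19], 
   [0,3,6,10,14,17,20], [0,2,3,4,5,6,10], [0,3,4,8,11,12,13], [0,3,5,7,10,11,14], [0,2,7,8,9,12,16], 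
   [0,5,10,11,13,14,17], [0,3,6,9,11,16,17], [0,3,4,5,6,10,12], [0,2,4,7,8,11,12], [0,3,4,6,9,12,14], 
   [0,4,5,6,8,15,17], [0,1,3,8,12,13,19], [0,4,6,9,13,17,19], [0,3,5,9,10,11,12], [0,3,6,8,9,12,13], 
   [0,2,4,7,11,12,13], [0,1,2,3,7,12,14], [0,1,7,8,9,10,15], [0,1,3,5,7,14,15], [0,3,6,9,10,15,17], 
   [0,3,4,5,11,15,17], [0,4,6,10,12,15,18], [0,5,9,10,12,16,18], [0,3,9,12,13,16,18], [0,2,4,5,6,13,15], 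
   [0,1,7,8,11,14,16], [0,2,3,4,8,11,18], [0,4,6,8,12,13,18], [0,2,6,10,15,18,19], [0,4,7,10,13,16,20], 
   [0,2,4,5,8,10,11], [0,4,5,10,11,12,13], [0,3,4,9,11,12,14], [0,1,4,5,8,12,15], [0,1,3,7,8,14,18], 
   [0,2,4,10,11,15,18], [0,4,5,10,11,17,18], [0,1,7,8,10,15,19], [0,2,7,8,12,16,19], [0,4,8,12,14,16,19], 
   [0,1,2,3,8,9,13], [0,5,7,8,10,11,14], [0,1,5,9,12,13,15], [0,5,6,12,13,14,15], [0,1,2,9,12,17,18], 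
   [0,2,5,8,11,15,19], [0,5,7,8,11,15,19], [0,2,3,8,13,16,19], [0,2,5,9,13,16,20], [0,1,2,3,4,7,12], 
   [0,2,6,7,8,9,12], [0,3,8,9,11,12,13], [0,2,5,6,8,10,14], [0,1,5,8,10,12,14], [0,1,3,4,5,12,15], 
   [0,1,2,6,9,13,16], [0,2,4,6,7,13,17], [0,1,3,6,11,14,17], [0,5,6,7,10,14,18], [0,1,5,7,9,15,18], 
   [0,3,4,6,7,9,14], [0,1,2,4,5,13,15], [0,2,10,11,13,14,15], [0,2,6,8,9,11,16], [0,5,9,10,11,13,17], 
   [0,3,4,6,9,14,17], [0,5,9,13,15,16,17], [0,1,3,9,12,13,18], [0,1,2,3,5,9,10], [0,1,3,5,7,9,10], 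
   [0,3,7,8,11,13,14], [0,3,8,11,12,13,14], [0,1,4,8,10,12,15], [0,6,8,9,10,12,15], [0,3,4,6,10,15,17], 
   [0,1,3,10,14,15,17], [0,1,7,10,14,15,18], [0,2,3,8,11,13,19], [0,1,3,4,5,10,12], [0,1,2,5,9,10,13], 
   [0,2,4,6,7,12,13], [0,1,5,9,10,12,13], [0,3,6,8,12,13,14], [0,3,6,7,9,10,15], [0,4,7,8,10,11,15], 
   [0,1,5,7,13,14,15], [0,2,5,9,10,13,16], [0,1,7,9,11,13,16], [0,1,4,6,12,13,16], [0,3,6,7,9,13,18], 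
   [0,1,8,12,13,14,18], [0,4,6,11,16,17,18], [0,2,8,10,11,15,19], [0,4,8,9,12,16,19], [0,1,6,7,13,16,19], 
   [0,1,6,11,13,17,19], [0,1,2,4,5,8,10], [0,4,5,6,7,10,13], [0,5,6,7,8,10,14], [0,1,2,4,9,13,14], 
   [0,5,7,8,11,14,15], [0,3,6,10,12,14,15], [0,1,2,3,9,11,16], [0,1,3,5,9,10,17], [0,4,6,8,10,15,17], 
   [0,3,4,9,14,16,17], [0,2,7,9,12,16,18], [0,4,7,10,15,16,18], [0,4,5,10,16,17,18], [0,1,4,7,13,14,19], 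
   [0,1,3,6,12,16,19], [0,1,4,6,8,11,12], [0,1,4,7,8,9,14], [0,2,5,8,10,11,14], [0,1,2,7,8,12,14], 
   [0,3,5,6,9,12,15], [0,5,8,11,12,14,15], [0,4,7,9,13,14,16], [0,3,4,5,7,15,16], [0,2,5,8,9,15,16], 
   [0,1,2,3,4,12,17], [0,2,4,6,8,12,17], [0,4,5,11,13,15,17], [0,1,5,8,14,15,17], [0,3,5,11,14,15,17], 
   [0,2,4,6,7,12,18], [0,1,5,9,10,12,18], [0,2,3,6,9,13,18], [0,3,6,8,12,14,18], [0,4,9,13,16,17,19], 
   [0,3,4,7,11,15,20], [0,2,6,10,14,18,20], [0,1,4,5,7,8,10], [0,1,3,6,9,11,12], [0,1,3,7,8,9,13], 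
   [0,2,3,4,8,11,13], [0,1,5,7,10,13,14], [0,4,6,7,8,10,15], [0,6,10,12,13,14,15], [0,2,4,6,11,13,16], 
   [0,2,5,10,13,14,16], [0,3,7,9,10,15,16], [0,4,7,10,13,15,16], [0,3,5,12,14,15,16], [0,3,4,5,6,10,17], 
   [0,2,3,7,9,11,17], [0,3,8,9,11,13,17], [0,2,5,9,11,15,18], [0,2,3,8,14,16,18], [0,3,7,13,14,16,18], 
   [0,4,6,7,9,13,19], [0,2,3,6,10,15,19], [0,3,4,9,12,16,19], [0,5,10,13,16,17,19], [0,1,6,7,8,9,11], 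
   [0,1,2,3,4,5,6,15,16], [0,1,5,8,9,10,13,17,18], [0,1,2,7,9,11,16,17,18], [0,2,5,7,10,13,16,19,22], 
   [0,2,4,5,6,7,8,10,12], [0,1,2,3,8,13,14,15,20], [0,1,4,7,10,13,14,19,20], [0,3,5,7,10,12,14,17,21], 
   [0,1,5,9,11,13,15,17,21], [0,1,4,7,10,11,15,18,21], [0,1,2,3,4,5,7,10,12], [0,1,4,8,10,11,12,15,16], 
   [0,1,3,4,9,11,14,16,17], [0,3,6,8,11,13,14,16,17], [0,1,5,6,8,14,15,16,17], [0,2,5,9,10,11,14,18,19], 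
   [0,1,6,9,10,13,16,17,20], [0,4,5,7,11,14,18,19,20], [0,1,2,3,6,8,9,11,13], [0,1,2,5,7,8,10,12,14], 
   [0,2,3,4,6,8,10,13,15], [0,1,3,7,8,9,10,13,15], [0,3,4,6,7,9,10,14,15], [0,1,2,3,6,10,11,14,15], 
   [0,1,9,10,11,12,13,15,16], [0,1,2,6,8,9,11,12,17], [0,1,3,6,8,9,11,13,17], [0,1,2,5,8,9,10,13,18], 
   [0,1,2,7,11,12,14,16,18], [0,2,7,10,11,14,15,17,18], [0,2,3,8,9,12,16,17,18], [0,2,6,7,10,12,13,15,19], 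
   [0,2,5,7,11,12,13,15,19], [0,2,5,7,11,13,15,17,19], [0,1,5,8,12,13,15,18,19], [0,2,3,6,10,13,14,18,20], 
   [0,4,5,8,9,12,16,19,20], [0,2,6,7,11,14,17,18,21], [0,1,3,4,5,6,7,10,11], [0,1,4,5,6,7,8,10,11], 
   [0,1,2,3,4,5,8,10,13], [0,1,3,4,5,7,8,10,13], [0,1,3,5,7,8,9,10,13], [0,2,3,4,5,8,10,11,13], 
   [0,2,3,5,8,9,10,11,13], [0,1,2,6,7,9,11,12,13], [0,3,5,8,9,10,11,12,13], [0,1,2,3,6,9,10,11,15], 
   [0,1,4,5,6,11,12,13,15], [0,3,4,7,9,10,11,14,15], [0,1,2,7,8,10,12,14,15], [0,1,3,4,9,10,12,14,15], 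
   [0,1,2,3,5,8,13,14,15], [0,3,5,7,8,11,13,14,15], [0,1,2,7,10,12,13,14,15], [0,1,2,3,4,5,6,10,16], 
   [0,1,5,6,7,8,9,10,16], [0,3,5,6,7,9,10,11,16], [0,1,2,3,5,6,9,15,16], [0,1,3,6,7,9,10,15,16], 
   [0,6,7,8,9,10,11,15,16], [0,1,3,4,5,11,12,15,16], [0,2,4,5,7,12,13,15,16], [0,1,4,5,11,12,13,15,16], 
   [0,1,2,5,6,13,14,15,16], [0,6,10,11,12,13,14,15,16], [0,3,4,5,6,7,10,12,17], [0,2,4,5,6,8,10,12,17], 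
   [0,1,2,3,6,11,12,14,17], [0,1,4,5,9,10,13,14,17], [0,1,2,4,9,12,13,14,17], [0,5,7,9,11,12,13,15,17], 
   [0,4,7,10,11,12,13,15,17], [0,1,2,3,5,12,14,15,17], [0,1,2,8,9,11,12,16,17], [0,1,5,6,8,10,14,16,17], 
   [0,4,6,8,9,11,14,16,17], [0,2,3,10,12,14,15,16,17], [0,1,2,5,7,9,10,17,18], [0,1,3,5,8,9,10,17,18], 
   [0,2,4,7,11,12,13,14,19], [0,1,5,6,7,11,13,15,19], [0,1,2,6,7,12,13,16,19], [0,2,6,7,8,9,14,17,19], 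
   [0,1,2,6,7,11,12,18,19], [0,3,6,7,12,13,17,18,19], [0,2,3,4,6,8,13,15,20], [0,2,7,9,11,12,13,15,20], 
   [0,2,5,7,8,11,14,17,20], [0,1,3,6,10,11,14,17,20], [0,2,4,9,10,11,14,18,20], [0,3,6,9,12,13,15,18,20], 
   [0,2,6,9,10,11,16,18,20], [0,4,5,8,12,13,16,18,20], [0,3,6,9,10,14,17,19,20], [0,1,5,9,10,11,13,17,21], 
   [0,2,3,4,8,12,13,17,21], [0,1,4,7,9,11,14,18,21], [0,3,5,7,10,13,14,18,21], [0,1,2,5,9,11,15,18,21], 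
   [0,2,6,9,10,11,15,18,21], [0,1,2,5,8,11,12,15,16,19,22], [0,2,3,5,7,8,10,13,16,19,22], 
   [0,1,4,6,8,11,13,15,18,20,22], [0,2,4,5,6,7,8,9,10,12,14], [0,1,4,6,7,10,13,14,16,19,20], 
   [0,1,4,5,9,11,13,15,17,19,21], [0,1,5,8,9,10,13,16,17,18,21], [0,1,2,3,7,8,12,13,14,15,20], 
   [0,1,2,3,4,5,6,7,15,16,17], [0,1,2,7,9,10,11,16,17,18,20], [0,3,4,6,8,10,11,13,15,17,21], 
   [0,2,3,4,6,9,10,12,14,17,20], [0,4,5,6,8,11,14,16,17,19,20], [0,1,2,3,8,12,13,14,15,17,20], 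
   [0,1,4,5,9,11,13,14,15,17,21], [0,2,3,5,6,7,8,10,12,13,14], [0,1,2,4,6,8,10,12,15,16,17], 
   [0,2,3,6,9,10,11,14,16,19,20], [0,2,4,5,7,9,12,13,14,16,20], [0,2,4,7,8,9,11,12,13,14,18], 
   [0,2,3,5,6,9,12,14,17,19,20], [0,4,6,7,8,9,10,12,14,17,20], [0,2,4,5,6,10,11,12,16,17,18], 
   [0,1,4,5,7,10,11,13,14,16,19], [0,4,5,6,8,10,11,12,14,16,19], [0,1,2,6,9,10,11,13,14,15,19], 
   [0,3,7,8,9,12,13,15,16,17,20], [0,2,3,5,8,10,12,13,16,19,22], [0,2,4,5,7,9,10,13,16,19,22], 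
   [0,1,4,7,10,11,13,14,15,16,19], [0,3,6,10,11,12,13,15,16,18,19], [0,2,3,4,6,8,12,13,16,17,21], 
   [0,1,4,7,8,10,13,16,18,20,21], [0,1,4,7,9,10,11,14,15,18,21], [0,2,4,5,6,7,8,10,12,14,19], 
   [0,2,3,7,10,13,14,15,16,17,18], [0,1,4,7,10,13,14,16,19,20,21], [0,3,5,6,7,9,12,14,17,19,20], 
   [0,1,2,7,9,10,13,14,17,19,20], [0,1,2,4,8,9,13,14,15,18,20], [0,2,4,6,10,12,13,15,16,17,21], 
   [0,1,3,7,8,11,12,14,17,18,21], [0,4,5,6,7,9,11,13,14,15,16], [0,1,4,7,8,10,13,14,18,19,20], 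
   [0,1,2,3,4,5,6,8,11,15,18], [0,6,7,8,10,11,12,14,15,16,17], [0,1,2,7,8,10,13,14,17,18,20], 
   [0,3,4,6,7,8,9,11,14,16,18], [0,1,2,3,9,10,11,13,15,16,18], [0,1,2,3,4,5,6,7,10,16,17], 
   [0,1,2,4,5,8,11,12,14,15,16,19,22], [0,1,2,5,6,9,10,11,14,17,18,19,22], [0,1,2,3,4,8,9,13,14,15,16,20,21], 
   [0,1,3,5,7,9,11,13,15,17,18,21,22], [0,1,2,3,4,9,10,11,13,16,18,19,20], [0,1,2,3,4,5,6,7,8,15,16,17,18], 
   [0,1,4,6,7,10,12,13,14,16,19,20,22], [0,1,2,4,6,7,8,11,13,15,18,20,22], [0,2,3,5,6,7,8,10,11,13,16,19,22], 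
   [0,2,4,5,6,7,8,9,10,11,12,14,16], [0,1,2,3,6,8,9,12,13,14,15,16,19,20,22], 
   [0,1,3,4,6,7,8,9,10,11,12,14,15,17,18], [0,1,2,3,4,5,6,7,8,9,13,15,17,19,21], 
   [0,1,2,3,4,5,6,11,12,13,14,17,18,19,20], [0,1,2,4,5,8,9,11,12,13,16,18,19,20,22], 
   [0,1,3,4,6,7,8,10,11,13,14,17,19,20,22], [0,1,3,4,7,8,9,10,11,12,13,16,17,19,20], 
   [0,1,2,3,4,5,8,9,10,11,12,13,17,19,21], [0,1,2,3,4,6,7,8,9,10,12,13,14,15,16], 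
   [0,2,3,4,6,7,8,9,10,11,13,14,15,17,21], [0,1,3,4,6,7,9,10,12,13,15,17,19,21,23], 
   [0,1,3,4,6,8,9,11,12,15,17,18,19,20,22], [0,1,2,4,6,8,9,10,11,13,15,17,18,19,22], 
   [0,1,3,4,5,7,8,12,14,15,16,17,18,19,21], [0,1,2,3,6,7,9,10,13,14,15,18,19,21,22], 
   [0,1,2,3,4,5,6,7,8,13,14,16,17,19,20], [0,1,2,3,5,7,9,11,12,13,14,18,19,20,21], 
   [0,2,3,4,5,6,7,9,11,12,13,14,15,16,18], [0,1,3,4,5,6,8,9,12,14,16,17,18,20,22], 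
   [0,1,2,4,5,6,8,9,10,12,13,14,16,17,18], [0,2,3,4,6,8,9,11,13,14,15,16,17,20,22], 
   [0,1,2,3,4,7,8,10,11,14,16,17,18,19,20]]

/-- Sets of zeros for two symmetric functions. -/
def zs2 : List (List ℕ) :=
  [[0,3,7,9,16], [0,3,9,12,16], [0,4,6,7,13], [0,2,4,6,13], [0,2,3,6,14], [0,1,3,4,7], [0,2,4,8,16], [0,1,8,9,12], 
   [0,1,8,12,14], [0,2,3,4,11], [0,1,2,3,9], [0,3,4,11,17], [0,1,3,9,12], [0,1,2,8,9], [0,2,4,11,13], 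
   [0,4,6,13,17], [0,2,3,9,16], [0,2,3,6,9], [0,2,3,11,14], [0,1,7,8,14], [0,1,8,14,17], [0,2,3,9,11], 
   [0,1,2,3,4,10,15], [0,3,6,7,9,12,17], [0,1,2,3,5,9,10], [0,3,4,6,11,12,16], [0,2,8,9,10,11,15], 
   [0,2,3,5,6,9,15], [0,2,3,4,6,11,16], [0,1,3,6,11,12,14], [0,1,7,9,10,15,18], [0,3,6,8,9,12,18], 
   [0,3,5,10,12,16,19], [0,1,4,7,8,10,15], [0,2,3,6,8,9,13], [0,2,7,9,11,13,17], [0,1,3,9,10,12,15], 
   [0,3,5,9,12,16,20], [0,1,5,9,13,17,20], [0,1,7,8,9,12,17], [0,2,4,5,11,13,15], [0,1,5,10,12,14,18], 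
   [0,1,3,4,9,12,14], [0,3,4,6,12,14,19], [0,1,2,4,7,8,12], [0,1,3,7,8,9,13], [0,3,4,6,7,10,15], 
   [0,3,5,6,9,12,15], [0,1,2,6,8,9,11], [0,2,3,4,5,6,15], [0,1,2,6,8,14,16], [0,1,2,7,8,9,12], [0,2,5,6,9,10,13], 
   [0,1,4,11,12,13,16], [0,1,2,4,5,8,10], [0,1,2,4,6,8,11], [0,1,2,5,9,10,13], [0,1,3,4,8,12,13], 
   [0,1,3,8,9,12,13], [0,2,5,6,8,10,14], [0,1,3,4,6,12,16], [0,3,5,9,10,11,17], [0,2,8,9,11,12,17], 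
   [0,2,3,6,9,13,18], [0,2,3,4,6,9,14], [0,1,3,4,7,9,14]]

/-- The constant one function of `16` variables. -/
def F16 : ℕ := 2 ^ 2 ^ 16 - 1

/-- Constants. -/
def cst : Bool → ℕ
  | false => 0
  | true => F16

/-- Truth tables of the values at `0, …, 24` of a function whose sums over the residue classes modulo
`5` vanish, which is `0` at `5` and has the values `c0, c1, c2` at `0, 10, 15`. -/
def tab1 (c0 c1 c2 : ℕ) : List ℕ :=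
  [c0, tt 16 0, tt 16 1, tt 16 2, tt 16 3, 0, tt 16 4, tt 16 5, tt 16 6, tt 16 7, c1, tt 16 8, tt 16 9,
   tt 16 10, tt 16 11, c2, tt 16 12, tt 16 13, tt 16 14, tt 16 15, c0 ^^^ (c1 ^^^ c2),
   tt 16 0 ^^^ (tt 16 4 ^^^ (tt 16 8 ^^^ tt 16 12)), tt 16 1 ^^^ (tt 16 5 ^^^ (tt 16 9 ^^^ tt 16 13)),
   tt 16 2 ^^^ (tt 16 6 ^^^ (tt 16 10 ^^^ tt 16 14)), tt 16 3 ^^^ (tt 16 7 ^^^ (tt 16 11 ^^^ tt 16 15))]

/-- The value number `t`. -/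
def X1 (c0 c1 c2 : Bool) (t : ℕ) : ℕ := (tab1 (cst c0) (cst c1) (cst c2)).getD t 0

/-- The statement that is checked. -/
def Chk1 (c0 c1 c2 : Bool) : Prop :=
  (anyc (X1 c0 c1 c2) F16 zs1 ||| (F16 ^^^ orl (fun t => X1 c0 c1 c2 t ^^^ X1 c0 c1 c2 (25 - t))
    [1, 2, 3, 4, 5, 6, 7, 8, 9, 10, 11, 12])) = F16

instance (c0 c1 c2 : Bool) : Decidable (Chk1 c0 c1 c2) := by
  unfold Chk1
  infer_instance

theorem chk1_000 : Chk1 false false false := by decide +kernel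

theorem chk1_001 : Chk1 false false true := by decide +kernel

theorem chk1_010 : Chk1 false true false := by decide +kernel

theorem chk1_011 : Chk1 false true true := by decide +kernel

theorem chk1_100 : Chk1 true false false := by decide +kernel

theorem chk1_101 : Chk1 true false true := by decide +kernel

theorem chk1_110 : Chk1 true true false := by decide +kernel

theorem chk1_111 : Chk1 true true true := by decide +kernel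

theorem chk1 (c0 c1 c2 : Bool) : Chk1 c0 c1 c2 := by
  cases c0 <;> cases c1 <;> cases c2
  · exact chk1_000
  · exact chk1_001
  · exact chk1_010
  · exact chk1_011
  · exact chk1_100
  · exact chk1_101
  · exact chk1_110
  · exact chk1_111

/-- The constant one function of `18` variables. -/
def F18 : ℕ := 2 ^ 2 ^ 18 - 1

/-- Truth tables of the values at `0, …, 24` of a symmetric function whose sums over the residue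
classes modulo `5` vanish and which is `0` at `5`. -/
def tab2 (v0 v1 v2 v3 v4 v5 v6 v7 v8 : ℕ) : List ℕ :=
  [0, v1, v5, v5 ^^^ (v6 ^^^ (v7 ^^^ v8)), v1 ^^^ (v2 ^^^ (v3 ^^^ v4)), 0, v2, v6, v8, v4, v0, v3, v7,
   v7, v3, v0, v4, v8, v6, v2, 0, v1 ^^^ (v2 ^^^ (v3 ^^^ v4)), v5 ^^^ (v6 ^^^ (v7 ^^^ v8)), v5, v1]

/-- The value number `t` of the first function. -/
def X2 (t : ℕ) : ℕ :=
  (tab2 (tt 18 0) (tt 18 1) (tt 18 2) (tt 18 3) (tt 18 4) (tt 18 5) (tt 18 6) (tt 18 7) (tt 18 8)).getD t 0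

/-- The value number `t` of the second function. -/
def Y2 (t : ℕ) : ℕ :=
  (tab2 (tt 18 9) (tt 18 10) (tt 18 11) (tt 18 12) (tt 18 13) (tt 18 14) (tt 18 15) (tt 18 16)
    (tt 18 17)).getD t 0

theorem chk2 : (anyc2 X2 Y2 F18 zs2 ||| (F18 ^^^ (orl X2 [1, 2, 3, 4, 5, 6, 7, 8, 9, 10, 11, 12] &&&
    (orl Y2 [1, 2, 3, 4, 5, 6, 7, 8, 9, 10, 11, 12] &&&
      orl (fun t => X2 t ^^^ Y2 t) [1, 2, 3, 4, 5, 6, 7, 8, 9, 10, 11, 12])))) = F18 := by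
  decide +kernel

/-- `Z` is a set of numbers less than `25` with an odd number of elements in each residue class
modulo `5`. -/
def valid (Z : List ℕ) : Bool :=
  Z.all (fun z => decide (z < 25)) && decide Z.Nodup &&
    [0, 1, 2, 3, 4].all fun r => xor (decide (r ∈ Z)) (xor (decide (r + 5 ∈ Z))
      (xor (decide (r + 10 ∈ Z)) (xor (decide (r + 15 ∈ Z)) (decide (r + 20 ∈ Z)))))

theorem valid_all : ((zs1 ++ zs2).all valid) = true := by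
  decide +kernel

end Q202.CCov
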