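import Pool.Agent.Q202.CCov.NoCover

set_option autoImplicit false

/-!
# The field with `2 ^ 25` elements
-/

namespace Q202.CCov

open Module

theorem exists_nu (L : Type*) [Field L] [Algebra (ZMod 2) L] [Finite L]
    (hL : finrank (ZMod 2) L = 25) :
    ∃ ν : L →ₗ[ZMod 2] ZMod 2, ∀ x, (∀ i < 25, ν (x ^ 2 ^ i) = 0) → x = 0 := by
  classical
  have : FiniteDimensional (ZMod 2) L := Module.Finite.of_finite
  have : IsGalois (ZMod 2) L := inferInstance
  have key : ∀ (g : Gal(L/(ZMod 2))) (x : L), (IsGalois.normalBasis (ZMod 2) L).coord g x =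
      (IsGalois.normalBasis (ZMod 2) L).coord 1 (g⁻¹ x) := by
    intro g x
    have h : (IsGalois.normalBasis (ZMod 2) L).coord g =
        (IsGalois.normalBasis (ZMod 2) L).coord 1 ∘ₗ (g⁻¹).toLinearMap := by
      refine (IsGalois.normalBasis (ZMod 2) L).ext fun h => ?_
      have h1 : (g⁻¹).toLinearMap ((IsGalois.normalBasis (ZMod 2) L) h) =
          (IsGalois.normalBasis (ZMod 2) L) (g⁻¹ * h) := by
        rw [IsGalois.normalBasis_apply h, IsGalois.normalBasis_apply (g⁻¹ * h)]
        rfl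
      rw [LinearMap.comp_apply, h1, Basis.coord_apply, Basis.coord_apply, Basis.repr_self,
        Basis.repr_self, Finsupp.single_apply, Finsupp.single_apply]
      by_cases hh : h = g
      · rw [if_pos hh, if_pos (by rw [hh, inv_mul_cancel])]
      · rw [if_neg hh, if_neg (fun h2 => hh (inv_mul_eq_one.1 h2).symm)]
    rw [h]
    rfl
  refine ⟨(IsGalois.normalBasis (ZMod 2) L).coord 1, fun x hx => ?_⟩
  apply (IsGalois.normalBasis (ZMod 2) L).ext_elem
  intro g
  have h1 := key g x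
  obtain ⟨n, hn⟩ := (FiniteField.bijective_frobeniusAlgEquivOfAlgebraic_pow (ZMod 2) L).2 g⁻¹
  have h2 : g⁻¹ x = x ^ 2 ^ (n : ℕ) := by
    rw [← hn]
    show (FiniteField.frobeniusAlgEquivOfAlgebraic (ZMod 2) L ^ (n : ℕ)) x = _
    rw [AlgEquiv.coe_pow, FiniteField.coe_frobeniusAlgEquivOfAlgebraic_iterate, ZMod.card]
  rw [h2, hx n (by have := n.2; omega)] at h1
  rw [Basis.coord_apply] at h1
  rw [h1]
  simp

section

variable {L : Type*} [Field L] [Algebra (ZMod 2) L] [Finite L]

variable (L) in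
/-- The Frobenius map as a linear map. -/
noncomputable def Fr : Module.End (ZMod 2) L := (FiniteField.frobeniusAlgHom (ZMod 2) L).toLinearMap

omit [Finite L] in
theorem Fr_apply (x : L) : Fr L x = x ^ 2 := by
  show (FiniteField.frobeniusAlgHom (ZMod 2) L) x = _
  rw [FiniteField.coe_frobeniusAlgHom, ZMod.card]

omit [Finite L] in
theorem Fr_pow (i : ℕ) (x : L) : (Fr L ^ i) x = x ^ 2 ^ i := by
  induction i with
  | zero => simp
  | succ i ih => rw [pow_succ', Module.End.mul_apply, ih, Fr_apply, ← pow_mul, pow_succ]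

variable (hL : finrank (ZMod 2) L = 25)

include hL

theorem Fr_25 (x : L) : (Fr L ^ 25) x = x := by
  have := Fintype.ofFinite L
  have : FiniteDimensional (ZMod 2) L := Module.Finite.of_finite
  have h : Fintype.card L = 2 ^ 25 := by
    rw [Module.card_eq_pow_finrank (K := ZMod 2) (V := L), hL, ZMod.card]
  rw [Fr_pow, ← h, FiniteField.pow_card]

theorem Fr_mod (i : ℕ) (x : L) : (Fr L ^ i) x = (Fr L ^ (i % 25)) x := by
  induction i using Nat.strong_induction_on with
  | _ i ih =>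
    by_cases hi : i < 25
    · rw [Nat.mod_eq_of_lt hi]
    · push Not at hi
      obtain ⟨k, rfl⟩ := Nat.exists_eq_add_of_le hi
      rw [add_comm, pow_add, Module.End.mul_apply, Fr_25 hL, ih k (by omega), Nat.add_mod_right]

/-- Coordinates with respect to a normal basis. -/
theorem exists_coord : ∃ ν : L →ₗ[ZMod 2] ZMod 2,
    Function.Bijective fun (x : L) (i : Fin 25) => ν ((Fr L ^ (i : ℕ)) x) := by
  obtain ⟨ν, hν⟩ := exists_nu L hL
  have : FiniteDimensional (ZMod 2) L := Module.Finite.of_finite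
  let S : L →ₗ[ZMod 2] (Fin 25 → ZMod 2) := LinearMap.pi fun i => ν ∘ₗ (Fr L ^ (i : ℕ))
  have hS : Function.Injective S := by
    rw [injective_iff_map_eq_zero]
    intro x hx
    apply hν
    intro i hi
    have h := congrFun hx ⟨i, hi⟩
    rw [← Fr_pow]
    exact h
  refine ⟨ν, ?_⟩
  show Function.Bijective S
  exact ⟨hS, (LinearMap.injective_iff_surjective_of_finrank_eq_finrank (by
    rw [hL, Module.finrank_fin_fun])).1 hS⟩

omit [Algebra (ZMod 2) L] [Finite L] [Field L] hL in
theorem axis_dec : ∀ c0 c1 c2 c3 c4 : ZMod 2, (c1 = c4 ∧ c2 = c3) ∨ (c2 = c0 ∧ c3 = c4) ∨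
    (c3 = c1 ∧ c4 = c0) ∨ (c4 = c2 ∧ c0 = c1) ∨ (c0 = c3 ∧ c1 = c2) := by decide

omit [Algebra (ZMod 2) L] [Finite L] [Field L] hL in
theorem axis (c : ℕ → ZMod 2) (hc : ∀ r, c (r + 5) = c r) :
    ∃ a < 5, c (a + 1) = c (a + 4) ∧ c (a + 2) = c (a + 3) := by
  have h5 := hc 0
  have h6 := hc 1
  have h7 := hc 2
  have h8 := hc 3
  norm_num at h5 h6 h7 h8
  rcases axis_dec (c 0) (c 1) (c 2) (c 3) (c 4) with h | h | h | h | h
  · exact ⟨0, by norm_num, h⟩
  · refine ⟨1, by norm_num, ?_, ?_⟩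
    · norm_num
      rw [h5]
      exact h.1
    · norm_num
      exact h.2
  · refine ⟨2, by norm_num, ?_, ?_⟩
    · norm_num
      rw [h6]
      exact h.1
    · norm_num
      rw [h5]
      exact h.2
  · refine ⟨3, by norm_num, ?_, ?_⟩
    · norm_num
      rw [h7]
      exact h.1
    · norm_num
      rw [h5, h6]
      exact h.2
  · refine ⟨4, by norm_num, ?_, ?_⟩
    · norm_num
      rw [h5, h8]
      exact h.1
    · norm_num
      rw [h6, h7]
      exact h.2

omit [Algebra (ZMod 2) L] [Finite L] [Field L] hL in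
/-- The four equations can be satisfied after a cyclic shift. -/
theorem axis2 (s : ℕ → ZMod 2) (hs : ∀ r, s (r + 25) = s r) : ∃ i < 25,
    (s (i + 1) + s (i + 6) + s (i + 11) + s (i + 16) + s (i + 21) =
      s (i + 4) + s (i + 9) + s (i + 14) + s (i + 19) + s (i + 24)) ∧
    (s (i + 2) + s (i + 7) + s (i + 12) + s (i + 17) + s (i + 22) =
      s (i + 3) + s (i + 8) + s (i + 13) + s (i + 18) + s (i + 23)) ∧
    s (i + 5) = s (i + 20) ∧ s (i + 10) = s (i + 15) := by
  obtain ⟨C, hC⟩ : ∃ C : ℕ → ZMod 2, ∀ r, C r = s r + s (r + 5) + s (r + 10) + s (r + 15) + s (r + 20) :=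
    ⟨_, fun _ => rfl⟩
  have hC5 : ∀ r, C (r + 5) = C r := by
    intro r
    rw [hC, hC]
    have h := hs r
    have e : r + 5 + 20 = r + 25 := rfl
    rw [e, h]
    ring_nf
  obtain ⟨a, ha, ha1, ha2⟩ := axis C hC5
  obtain ⟨b, hb, hb1, hb2⟩ := axis (fun j => s (a + 5 * j)) (by
    intro r
    show s (a + 5 * (r + 5)) = s (a + 5 * r)
    rw [← hs (a + 5 * r)]
    rfl)
  have hCb : ∀ r b, C (r + 5 * b) = C r := by
    intro r b
    induction b with
    | zero => rfl
    | succ b ih =>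
      have e : r + 5 * (b + 1) = (r + 5 * b) + 5 := by ring
      rw [e, hC5, ih]
  refine ⟨a + 5 * b, by omega, ?_, ?_, ?_, ?_⟩
  · have h := ha1
    rw [← hCb (a + 1) b, ← hCb (a + 4) b, hC, hC] at h
    have e : a + 1 + 5 * b = a + 5 * b + 1 := by ring
    have e' : a + 4 + 5 * b = a + 5 * b + 4 := by ring
    rw [e, e'] at h
    exact h
  · have h := ha2
    rw [← hCb (a + 2) b, ← hCb (a + 3) b, hC, hC] at h
    have e : a + 2 + 5 * b = a + 5 * b + 2 := by ring
    have e' : a + 3 + 5 * b = a + 5 * b + 3 := by ring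
    rw [e, e'] at h
    exact h
  · have h : s (a + 5 * (b + 1)) = s (a + 5 * (b + 4)) := hb1
    have e : a + 5 * (b + 1) = a + 5 * b + 5 := by ring
    have e' : a + 5 * (b + 4) = a + 5 * b + 20 := by ring
    rw [e, e'] at h
    exact h
  · have h : s (a + 5 * (b + 2)) = s (a + 5 * (b + 3)) := hb2
    have e : a + 5 * (b + 2) = a + 5 * b + 10 := by ring
    have e' : a + 5 * (b + 3) = a + 5 * b + 15 := by ring
    rw [e, e'] at h
    exact h

/-- A covering subspace of codimension four. -/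
theorem exists_cov4 : ∃ U : Submodule (ZMod 2) L, finrank (ZMod 2) U = 21 ∧
    ∀ x : L, ∃ i < 25, (Fr L ^ i) x ∈ U := by
  have : FiniteDimensional (ZMod 2) L := Module.Finite.of_finite
  obtain ⟨ν, hν⟩ := exists_coord hL
  let s : ℕ → L →ₗ[ZMod 2] ZMod 2 := fun i => ν ∘ₗ (Fr L ^ i)
  let F : L →ₗ[ZMod 2] (Fin 4 → ZMod 2) := LinearMap.pi
    ![s 1 + s 6 + s 11 + s 16 + s 21 - (s 4 + s 9 + s 14 + s 19 + s 24),
      s 2 + s 7 + s 12 + s 17 + s 22 - (s 3 + s 8 + s 13 + s 18 + s 23),
      s 5 - s 20, s 10 - s 15]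
  have hF : Function.Surjective F := by
    intro y
    obtain ⟨x, hx⟩ := hν.2 (fun i : Fin 25 => if (i : ℕ) = 1 then y 0 - 0 else
      if (i : ℕ) = 2 then y 1 else if (i : ℕ) = 5 then y 2 else if (i : ℕ) = 10 then y 3 else 0)
    have hx' : ∀ i < 25, s i x = if i = 1 then y 0 - 0 else
        if i = 2 then y 1 else if i = 5 then y 2 else if i = 10 then y 3 else 0 := by
      intro i hi
      exact congrFun hx ⟨i, hi⟩
    refine ⟨x, ?_⟩
    ext j
    fin_cases j
    · show (s 1 + s 6 + s 11 + s 16 + s 21 - (s 4 + s 9 + s 14 + s 19 + s 24)) x = y 0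
      simp only [LinearMap.sub_apply, LinearMap.add_apply]
      norm_num [hx']
    · show (s 2 + s 7 + s 12 + s 17 + s 22 - (s 3 + s 8 + s 13 + s 18 + s 23)) x = y 1
      simp only [LinearMap.sub_apply, LinearMap.add_apply]
      norm_num [hx']
    · show (s 5 - s 20) x = y 2
      simp only [LinearMap.sub_apply, LinearMap.add_apply]
      norm_num [hx']
    · show (s 10 - s 15) x = y 3
      simp only [LinearMap.sub_apply, LinearMap.add_apply]
      norm_num [hx']
  refine ⟨LinearMap.ker F, ?_, fun x => ?_⟩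
  · have h1 := LinearMap.finrank_range_add_finrank_ker F
    rw [LinearMap.range_eq_top.2 hF, finrank_top, Module.finrank_fin_fun, hL] at h1
    omega
  · obtain ⟨i, hi, h1, h2, h3, h4⟩ := axis2 (fun j => s j x) (by
      intro r
      show ν ((Fr L ^ (r + 25)) x) = ν ((Fr L ^ r) x)
      rw [pow_add, Module.End.mul_apply, Fr_25 hL])
    have hs : ∀ j, s j ((Fr L ^ i) x) = s (i + j) x := by
      intro j
      show ν ((Fr L ^ j) ((Fr L ^ i) x)) = ν ((Fr L ^ (i + j)) x)
      rw [add_comm i j, pow_add]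
      rfl
    refine ⟨i, hi, ?_⟩
    rw [LinearMap.mem_ker]
    ext j
    fin_cases j
    · show (s 1 + s 6 + s 11 + s 16 + s 21 - (s 4 + s 9 + s 14 + s 19 + s 24)) ((Fr L ^ i) x) = 0
      simp only [LinearMap.sub_apply, LinearMap.add_apply, hs]
      exact sub_eq_zero.2 h1
    · show (s 2 + s 7 + s 12 + s 17 + s 22 - (s 3 + s 8 + s 13 + s 18 + s 23)) ((Fr L ^ i) x) = 0
      simp only [LinearMap.sub_apply, LinearMap.add_apply, hs]
      exact sub_eq_zero.2 h2
    · show (s 5 - s 20) ((Fr L ^ i) x) = 0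
      simp only [LinearMap.sub_apply, LinearMap.add_apply, hs]
      exact sub_eq_zero.2 h3
    · show (s 10 - s 15) ((Fr L ^ i) x) = 0
      simp only [LinearMap.sub_apply, LinearMap.add_apply, hs]
      exact sub_eq_zero.2 h4

end

end Q202.CCov
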