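import Pool.Agent.Q202.CCov.Comb

set_option autoImplicit false

/-!
# Spaces with an operator annihilated by the 25th cyclotomic polynomial over `F_2`
-/

namespace Q202.CCov

open Polynomial Module

instance fact2 : Fact (Nat.Prime 2) := ⟨Nat.prime_two⟩

theorem cyc_eq : cyclotomic 25 (ZMod 2) = 1 + X ^ 5 + X ^ 10 + X ^ 15 + X ^ 20 := by
  have h : cyclotomic (5 ^ (1 + 1)) (ZMod 2) = ∑ i ∈ Finset.range 5, (X ^ 5 ^ 1) ^ i :=
    cyclotomic_prime_pow_eq_geom_sum (by norm_num)
  norm_num at h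
  rw [h]
  simp only [Finset.sum_range_succ, Finset.sum_range_zero]
  ring

theorem cyc_irr : Irreducible (cyclotomic 25 (ZMod 2)) := by
  refine ZMod.irreducible_of_dvd_cyclotomic_of_natDegree (p := 2) (n := 25) (by norm_num) dvd_rfl ?_
  rw [natDegree_cyclotomic]
  symm
  have h20 : Nat.totient 25 = 20 := by decide +kernel
  rw [h20]
  apply orderOf_eq_of_pow_and_pow_div_prime (by norm_num)
  · decide +kernel
  · intro p hp hd
    have hp' : p ∈ Nat.primeFactors 20 := by
      rw [Nat.mem_primeFactors]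
      exact ⟨hp, hd, by norm_num⟩
    have h3 : Nat.primeFactors 20 = {2, 5} := by decide +kernel
    rw [h3] at hp'
    simp only [Finset.mem_insert, Finset.mem_singleton] at hp'
    rcases hp' with rfl | rfl
    · decide +kernel
    · decide +kernel

theorem poly_aux (β : Fin 20 → ZMod 2) (i : Fin 20) (hi : β i ≠ 0) :
    (∑ t : Fin 20, C (β t) * X ^ (t : ℕ) : (ZMod 2)[X]) ≠ 0 ∧
    (∑ t : Fin 20, C (β t) * X ^ (t : ℕ) : (ZMod 2)[X]).natDegree < 20 := by
  have hco : (∑ t : Fin 20, C (β t) * X ^ (t : ℕ) : (ZMod 2)[X]).coeff (i : ℕ) = β i := by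
    rw [finsetSum_coeff, Finset.sum_eq_single i]
    · rw [coeff_C_mul, coeff_X_pow, if_pos rfl, mul_one]
    · intro b _ hb
      rw [coeff_C_mul, coeff_X_pow, if_neg, mul_zero]
      intro h
      exact hb (Fin.ext h.symm)
    · intro h
      exact absurd (Finset.mem_univ i) h
  have hf : (∑ t : Fin 20, C (β t) * X ^ (t : ℕ) : (ZMod 2)[X]) ≠ 0 := by
    intro h
    rw [h, coeff_zero] at hco
    exact hi hco.symm
  exact ⟨hf, (natDegree_lt_iff_degree_lt hf).2 (degree_sum_fin_lt β)⟩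

variable {N : Type*} [AddCommGroup N] [Module (ZMod 2) N]

theorem aeval_sum (T : Module.End (ZMod 2) N) (β : Fin 20 → ZMod 2) (ℓ : Dual (ZMod 2) N) (x : N) :
    ℓ (aeval T (∑ t : Fin 20, C (β t) * X ^ (t : ℕ)) x) =
      ∑ t : Fin 20, β t * ℓ ((T ^ (t : ℕ)) x) := by
  rw [map_sum, LinearMap.sum_apply, map_sum]
  refine Finset.sum_congr rfl fun t _ => ?_
  rw [map_mul, aeval_C, map_pow, aeval_X, Module.End.mul_apply, Module.algebraMap_end_apply,
    map_smul, smul_eq_mul]

section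

variable {T : Module.End (ZMod 2) N}
  (hT : ∀ x : N, x + (T ^ 5) x + (T ^ 10) x + (T ^ 15) x + (T ^ 20) x = 0)

include hT

theorem aeval_cyc : aeval T (cyclotomic 25 (ZMod 2)) = 0 := by
  rw [cyc_eq]
  ext x
  simpa using hT x

theorem aeval_surj {f : (ZMod 2)[X]} (hf : f ≠ 0) (hd : f.natDegree < 20) :
    Function.Surjective (aeval T f) := by
  have h1 : ¬ cyclotomic 25 (ZMod 2) ∣ f := by
    apply not_dvd_of_natDegree_lt hf
    rw [natDegree_cyclotomic]
    have h20 : Nat.totient 25 = 20 := by decide +kernel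
    rw [h20]
    exact hd
  obtain ⟨u, v, h⟩ := (cyc_irr.coprime_iff_not_dvd.2 h1)
  intro y
  refine ⟨aeval T v y, ?_⟩
  have h2 := congrArg (fun g => aeval T g y) h
  simp only [map_add, map_mul, aeval_cyc hT, map_one, mul_zero, zero_add] at h2
  have h3 : aeval T f (aeval T v y) = (aeval T f * aeval T v) y := rfl
  rw [h3, ← map_mul, mul_comm f v, map_mul]
  exact h2

theorem indep {ℓ : Dual (ZMod 2) N} (hℓ : ℓ ≠ 0) :
    LinearIndependent (ZMod 2) fun t : Fin 20 => ℓ ∘ₗ (T ^ (t : ℕ)) := by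
  rw [Fintype.linearIndependent_iff]
  intro β hβ
  by_contra hne
  push Not at hne
  obtain ⟨i, hi⟩ := hne
  have hfd := poly_aux β i hi
  have hf := hfd.1
  have hd := hfd.2
  apply hℓ
  ext y
  obtain ⟨x, hx⟩ := aeval_surj hT hf hd y
  rw [← hx, aeval_sum]
  have h := congrArg (fun g : Dual (ZMod 2) N => g x) hβ
  simpa [LinearMap.sum_apply] using h

variable [FiniteDimensional (ZMod 2) N] (hN : finrank (ZMod 2) N = 20)

include hN

theorem exists_coeff {ℓ : Dual (ZMod 2) N} (hℓ : ℓ ≠ 0) (m : Dual (ZMod 2) N) :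
    ∃ β : Fin 20 → ZMod 2, ∀ x, m x = ∑ t : Fin 20, β t * ℓ ((T ^ (t : ℕ)) x) := by
  have h1 := (indep hT hℓ).span_eq_top_of_card_eq_finrank (by
    rw [Subspace.dual_finrank_eq, hN, Fintype.card_fin])
  have h2 : m ∈ Submodule.span (ZMod 2) (Set.range fun t : Fin 20 => ℓ ∘ₗ (T ^ (t : ℕ))) := by
    rw [h1]
    exact Submodule.mem_top
  obtain ⟨β, hβ⟩ := (Submodule.mem_span_range_iff_exists_fun (ZMod 2)).1 h2
  refine ⟨β, fun x => ?_⟩
  rw [← hβ]
  simp

theorem exists_vec {ℓ : Dual (ZMod 2) N} (hℓ : ℓ ≠ 0) (w : Fin 20 → ZMod 2) :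
    ∃ x, ∀ t : Fin 20, ℓ ((T ^ (t : ℕ)) x) = w t := by
  have hc : Fintype.card (Fin 20) = finrank (ZMod 2) (Dual (ZMod 2) N) := by
    rw [Subspace.dual_finrank_eq, hN, Fintype.card_fin]
  refine ⟨(evalEquiv (ZMod 2) N).symm
    (∑ t, w t • (basisOfLinearIndependentOfCardEqFinrank (indep hT hℓ) hc).coord t), fun s => ?_⟩
  have h1 : ℓ ((T ^ (s : ℕ)) ((evalEquiv (ZMod 2) N).symm
      (∑ t, w t • (basisOfLinearIndependentOfCardEqFinrank (indep hT hℓ) hc).coord t))) =
      (∑ t, w t • (basisOfLinearIndependentOfCardEqFinrank (indep hT hℓ) hc).coord t)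
        (ℓ ∘ₗ (T ^ (s : ℕ))) := by
    rw [← apply_evalEquiv_symm_apply]
    rfl
  have h2 : ℓ ∘ₗ (T ^ (s : ℕ)) = (basisOfLinearIndependentOfCardEqFinrank (indep hT hℓ) hc) s := by
    rw [coe_basisOfLinearIndependentOfCardEqFinrank]
  rw [h1, h2, LinearMap.sum_apply, Finset.sum_eq_single s]
  · rw [LinearMap.smul_apply, Basis.coord_apply, Basis.repr_self, Finsupp.single_eq_same, smul_eq_mul,
      mul_one]
  · intro t _ ht
    rw [LinearMap.smul_apply, Basis.coord_apply, Basis.repr_self, Finsupp.single_apply,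
      if_neg (fun h => ht h.symm), smul_zero]
  · intro h
    exact absurd (Finset.mem_univ s) h

/-- Sequences with values in `F_2` whose sums over the residue classes modulo `5` vanish occur as
`ℓ (T ^ i x)`. -/
theorem exists_seq {ℓ : Dual (ZMod 2) N} (hℓ : ℓ ≠ 0) (W : ZMod 25 → ZMod 2)
    (hW : ∀ r, W r + W (r + 5) + W (r + 10) + W (r + 15) + W (r + 20) = 0) :
    ∃ x, ∀ i : ℕ, ℓ ((T ^ i) x) = W i := by
  obtain ⟨x, hx⟩ := exists_vec hT hN hℓ fun t : Fin 20 => W ((t : ℕ) : ZMod 25)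
  refine ⟨x, fun i => ?_⟩
  induction i using Nat.strong_induction_on with
  | _ i ih =>
    by_cases hi : i < 20
    · exact hx ⟨i, hi⟩
    · push Not at hi
      obtain ⟨k, rfl⟩ := Nat.exists_eq_add_of_le hi
      have h1 := congrArg ℓ (hT ((T ^ k) x))
      simp only [map_add, map_zero, ← Module.End.mul_apply, ← pow_add] at h1
      have h2 := hW (k : ZMod 25)
      have e0 := ih k (by omega)
      have e1 := ih (5 + k) (by omega)
      have e2 := ih (10 + k) (by omega)
      have e3 := ih (15 + k) (by omega)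
      rw [e0, e1, e2, e3] at h1
      push_cast at h1 ⊢
      have c5 : (5 : ZMod 25) + k = k + 5 := add_comm _ _
      have c10 : (10 : ZMod 25) + k = k + 10 := add_comm _ _
      have c15 : (15 : ZMod 25) + k = k + 15 := add_comm _ _
      have c20 : (20 : ZMod 25) + k = k + 20 := add_comm _ _
      rw [c5, c10, c15] at h1
      rw [c20]
      linear_combination h1 - h2

end

end Q202.CCov
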