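import Pool.Agent.Q202.CCov.Fld

set_option autoImplicit false

/-!
# The counterexample
-/

namespace Q202.CCov

open Module

section

variable {L : Type*} [Field L] [Algebra (ZMod 2) L] [Finite L]

variable (L) in
/-- The subfield with 32 elements. -/
noncomputable def W1 : Submodule (ZMod 2) L := LinearMap.ker (Fr L ^ 5 - 1)

variable (L) in
/-- The kernel of the relative trace to the subfield with 32 elements. -/
noncomputable def W2 : Submodule (ZMod 2) L :=
  LinearMap.ker (1 + Fr L ^ 5 + Fr L ^ 10 + Fr L ^ 15 + Fr L ^ 20)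

omit [Finite L] in
theorem mem_W1 (x : L) : x ∈ W1 L ↔ (Fr L ^ 5) x = x := by
  rw [W1, LinearMap.mem_ker, LinearMap.sub_apply, sub_eq_zero]
  rfl

omit [Finite L] in
theorem mem_W2 (x : L) : x ∈ W2 L ↔
    x + (Fr L ^ 5) x + (Fr L ^ 10) x + (Fr L ^ 15) x + (Fr L ^ 20) x = 0 := by
  rw [W2, LinearMap.mem_ker]
  rfl

omit [Finite L] in
theorem comm_pow (i j : ℕ) (x : L) : (Fr L ^ i) ((Fr L ^ j) x) = (Fr L ^ (i + j)) x := by
  rw [pow_add]
  rfl

omit [Finite L] in
theorem W1_inv (i : ℕ) {x : L} (hx : x ∈ W1 L) : (Fr L ^ i) x ∈ W1 L := by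
  rw [mem_W1] at hx ⊢
  rw [comm_pow, add_comm, ← comm_pow, hx]

omit [Finite L] in
theorem W2_inv (i : ℕ) {x : L} (hx : x ∈ W2 L) : (Fr L ^ i) x ∈ W2 L := by
  rw [mem_W2] at hx ⊢
  have h := congrArg (Fr L ^ i) hx
  simp only [map_add, map_zero, comm_pow] at h ⊢
  rw [add_comm 5 i, add_comm 10 i, add_comm 15 i, add_comm 20 i]
  exact h

omit [Finite L] in
theorem two_zero (x : L) : x + x = 0 := by
  have h2 : (1 : ZMod 2) + 1 = 0 := rfl
  calc x + x = (1 : ZMod 2) • x + (1 : ZMod 2) • x := by rw [one_smul]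
    _ = ((1 : ZMod 2) + 1) • x := (add_smul _ _ _).symm
    _ = 0 := by rw [h2, zero_smul]

variable (hL : finrank (ZMod 2) L = 25)

include hL

theorem compl : IsCompl (W1 L) (W2 L) := by
  constructor
  · rw [Submodule.disjoint_def]
    intro x h1 h2
    rw [mem_W1] at h1
    rw [mem_W2] at h2
    have h10 : (Fr L ^ 10) x = x := by
      rw [show (10 : ℕ) = 5 + 5 from rfl, ← comm_pow, h1, h1]
    have h15 : (Fr L ^ 15) x = x := by
      rw [show (15 : ℕ) = 5 + 10 from rfl, ← comm_pow, h10, h1]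
    have h20 : (Fr L ^ 20) x = x := by
      rw [show (20 : ℕ) = 5 + 15 from rfl, ← comm_pow, h15, h1]
    rw [h1, h10, h15, h20, two_zero, zero_add, two_zero, zero_add] at h2
    exact h2
  · rw [codisjoint_iff, eq_top_iff]
    intro x _
    rw [Submodule.mem_sup]
    have h25 := Fr_25 hL x
    have h30 := comm_pow 5 25 x
    rw [h25] at h30
    have h35 := comm_pow 10 25 x
    rw [h25] at h35
    have h40 := comm_pow 15 25 x
    rw [h25] at h40
    refine ⟨x + (Fr L ^ 5) x + (Fr L ^ 10) x + (Fr L ^ 15) x + (Fr L ^ 20) x, ?_,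
      (Fr L ^ 5) x + (Fr L ^ 10) x + (Fr L ^ 15) x + (Fr L ^ 20) x, ?_, ?_⟩
    · rw [mem_W1]
      simp only [map_add, comm_pow]
      norm_num
      rw [h25]
      abel
    · rw [mem_W2]
      simp only [map_add, comm_pow]
      norm_num at h30 h35 h40 ⊢
      rw [← h30, ← h35, ← h40, h25]
      have e5 := two_zero ((Fr L ^ 5) x)
      have e10 := two_zero ((Fr L ^ 10) x)
      have e15 := two_zero ((Fr L ^ 15) x)
      have e20 := two_zero ((Fr L ^ 20) x)
      have e0 := two_zero x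
      linear_combination 2 * e5 + 2 * e10 + 2 * e15 + 2 * e20 + 2 * e0
    · have e5 := two_zero ((Fr L ^ 5) x)
      have e10 := two_zero ((Fr L ^ 10) x)
      have e15 := two_zero ((Fr L ^ 15) x)
      have e20 := two_zero ((Fr L ^ 20) x)
      linear_combination e5 + e10 + e15 + e20

theorem finrank_W1_le : finrank (ZMod 2) (W1 L) ≤ 5 := by
  have : FiniteDimensional (ZMod 2) L := Module.Finite.of_finite
  obtain ⟨ν, hν⟩ := exists_coord hL
  let S : W1 L →ₗ[ZMod 2] (Fin 5 → ZMod 2) :=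
    LinearMap.pi fun i => (ν ∘ₗ (Fr L ^ (i : ℕ))) ∘ₗ (W1 L).subtype
  have hS : Function.Injective S := by
    rw [injective_iff_map_eq_zero]
    intro x hx
    have h5 : ∀ i < 5, ν ((Fr L ^ i) (x : L)) = 0 := fun i hi => congrFun hx ⟨i, hi⟩
    have hx1 := (mem_W1 _).1 x.2
    have h : ∀ i : ℕ, ν ((Fr L ^ i) (x : L)) = 0 := by
      intro i
      induction i using Nat.strong_induction_on with
      | _ i ih =>
        by_cases hi : i < 5
        · exact h5 i hi
        · push Not at hi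
          obtain ⟨k, rfl⟩ := Nat.exists_eq_add_of_le hi
          rw [add_comm, ← comm_pow, hx1]
          exact ih k (by omega)
    apply Subtype.ext
    apply hν.1
    funext i
    show ν ((Fr L ^ (i : ℕ)) (x : L)) = ν ((Fr L ^ (i : ℕ)) (0 : L))
    rw [h, map_zero, map_zero]
  have h := LinearMap.finrank_le_finrank_of_injective hS
  rwa [Module.finrank_fin_fun] at h

theorem finrank_W2_le : finrank (ZMod 2) (W2 L) ≤ 20 := by
  have : FiniteDimensional (ZMod 2) L := Module.Finite.of_finite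
  obtain ⟨ν, hν⟩ := exists_coord hL
  let S : W2 L →ₗ[ZMod 2] (Fin 20 → ZMod 2) :=
    LinearMap.pi fun i => (ν ∘ₗ (Fr L ^ (i : ℕ))) ∘ₗ (W2 L).subtype
  have hS : Function.Injective S := by
    rw [injective_iff_map_eq_zero]
    intro x hx
    have h5 : ∀ i < 20, ν ((Fr L ^ i) (x : L)) = 0 := fun i hi => congrFun hx ⟨i, hi⟩
    have h : ∀ i : ℕ, ν ((Fr L ^ i) (x : L)) = 0 := by
      intro i
      induction i using Nat.strong_induction_on with
      | _ i ih =>
        by_cases hi : i < 20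
        · exact h5 i hi
        · push Not at hi
          obtain ⟨k, rfl⟩ := Nat.exists_eq_add_of_le hi
          have h1 := congrArg ν ((mem_W2 _).1 (W2_inv k x.2))
          simp only [map_add, map_zero, comm_pow] at h1
          rw [ih k (by omega), ih (5 + k) (by omega), ih (10 + k) (by omega), ih (15 + k) (by omega)] at h1
          simpa using h1
    apply Subtype.ext
    apply hν.1
    funext i
    show ν ((Fr L ^ (i : ℕ)) (x : L)) = ν ((Fr L ^ (i : ℕ)) (0 : L))
    rw [h, map_zero, map_zero]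
  have h := LinearMap.finrank_le_finrank_of_injective hS
  rwa [Module.finrank_fin_fun] at h

theorem finrank_W : finrank (ZMod 2) (W1 L) = 5 ∧ finrank (ZMod 2) (W2 L) = 20 := by
  have : FiniteDimensional (ZMod 2) L := Module.Finite.of_finite
  have h := Submodule.finrank_add_eq_of_isCompl (compl hL)
  have h1 := finrank_W1_le hL
  have h2 := finrank_W2_le hL
  omega

omit hL in
theorem card_sub (U : Submodule (ZMod 2) L) : Nat.card U = 2 ^ finrank (ZMod 2) U := by
  have : FiniteDimensional (ZMod 2) L := Module.Finite.of_finite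
  rw [Module.natCard_eq_pow_finrank (K := ZMod 2) (V := U), Nat.card_zmod]

omit hL in
theorem count (U W : Submodule (ZMod 2) L) (m : ℕ)
    (h : ∀ x ∈ W, ∃ i < m, ∃ u ∈ U, (Fr L ^ i) u = x) :
    2 ^ finrank (ZMod 2) W ≤ m * 2 ^ finrank (ZMod 2) U := by
  have h1 : ∀ x : W, ∃ p : Fin m × U, (Fr L ^ (p.1 : ℕ)) p.2 = x := by
    intro x
    obtain ⟨i, hi, u, hu, hx⟩ := h x x.2
    exact ⟨(⟨i, hi⟩, ⟨u, hu⟩), hx⟩
  choose g hg using h1
  have hinj : Function.Injective g := by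
    intro x y hxy
    apply Subtype.ext
    rw [← hg x, ← hg y, hxy]
  have h2 := Nat.card_le_card_of_injective g hinj
  rw [Nat.card_prod, Nat.card_fin, card_sub, card_sub] at h2
  exact h2

theorem low_top (U : Submodule (ZMod 2) L) (h : ∀ x : L, ∃ i < 25, ∃ u ∈ U, u ^ 2 ^ i = x) :
    21 ≤ finrank (ZMod 2) U := by
  have h1 := count U ⊤ 25 (fun x _ => by
    obtain ⟨i, hi, u, hu, hx⟩ := h x
    exact ⟨i, hi, u, hu, by rw [Fr_pow]; exact hx⟩)
  rw [finrank_top, hL] at h1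
  by_contra hcon
  have h2 : 2 ^ finrank (ZMod 2) U ≤ 2 ^ 20 := Nat.pow_le_pow_right (by norm_num) (by omega)
  omega

theorem low_W1 (U : Submodule (ZMod 2) L) (hU : U ≤ W1 L)
    (h : ∀ x ∈ W1 L, ∃ i < 25, ∃ u ∈ U, u ^ 2 ^ i = x) : 3 ≤ finrank (ZMod 2) U := by
  have hp : ∀ (i : ℕ) (u : L), u ∈ W1 L → (Fr L ^ i) u = (Fr L ^ (i % 5)) u := by
    intro i u hu
    induction i using Nat.strong_induction_on with
    | _ i ih =>
      by_cases hi : i < 5
      · rw [Nat.mod_eq_of_lt hi]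
      · push Not at hi
        obtain ⟨k, rfl⟩ := Nat.exists_eq_add_of_le hi
        rw [add_comm, ← comm_pow, (mem_W1 _).1 hu, ih k (by omega), Nat.add_mod_right]
  have h1 := count U (W1 L) 5 (fun x hx => by
    obtain ⟨i, hi, u, hu, hx⟩ := h x hx
    exact ⟨i % 5, Nat.mod_lt _ (by norm_num), u, hu, by rw [← hp i u (hU hu), Fr_pow]; exact hx⟩)
  rw [(finrank_W hL).1] at h1
  by_contra hcon
  have h2 : 2 ^ finrank (ZMod 2) U ≤ 2 ^ 2 := Nat.pow_le_pow_right (by norm_num) (by omega)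
  omega

theorem low_W2 (U : Submodule (ZMod 2) L) (hU : U ≤ W2 L)
    (h : ∀ x ∈ W2 L, ∃ i < 25, ∃ u ∈ U, u ^ 2 ^ i = x) : 18 ≤ finrank (ZMod 2) U := by
  have : FiniteDimensional (ZMod 2) L := Module.Finite.of_finite
  by_contra hcon
  let T : Module.End (ZMod 2) (W2 L) := (Fr L).restrict fun x hx => by
    have := W2_inv 1 hx
    rwa [pow_one] at this
  have hT : ∀ (i : ℕ) (x : W2 L), (((T ^ i) x : W2 L) : L) = (Fr L ^ i) (x : L) := by
    intro i x
    induction i with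
    | zero => rfl
    | succ i ih =>
      rw [pow_succ', pow_succ', Module.End.mul_apply, Module.End.mul_apply, ← ih]
      rfl
  have hU2 : finrank (ZMod 2) (U.comap (W2 L).subtype) ≤ 17 := by
    rw [(Submodule.comapSubtypeEquivOfLe hU).finrank_eq]
    omega
  obtain ⟨x, hx⟩ := no_cover (N := W2 L) (T := T) (by
    intro x
    apply Subtype.ext
    simp only [Submodule.coe_add, hT, Submodule.coe_zero]
    exact (mem_W2 _).1 x.2) (finrank_W hL).2 (U.comap (W2 L).subtype) hU2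
  obtain ⟨i, hi, u, hu, hux⟩ := h x x.2
  apply hx (25 - i)
  rw [Submodule.mem_comap]
  show (((T ^ (25 - i)) x : W2 L) : L) ∈ U
  rw [hT, ← hux, ← Fr_pow, comm_pow, show 25 - i + i = 25 by omega, Fr_25 hL]
  exact hu

/-- All facts about the counterexample. -/
theorem main_raw : ∃ W₁ W₂ : Submodule (ZMod 2) L, (∀ x ∈ W₁, x ^ 2 ∈ W₁) ∧ (∀ x ∈ W₂, x ^ 2 ∈ W₂) ∧
    IsCompl W₁ W₂ ∧ finrank (ZMod 2) W₁ = 5 ∧ finrank (ZMod 2) W₂ = 20 ∧
    (∀ U ≤ W₁, (∀ x ∈ W₁, ∃ i < 25, ∃ u ∈ U, u ^ 2 ^ i = x) → 3 ≤ finrank (ZMod 2) U) ∧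
    (∀ U ≤ W₂, (∀ x ∈ W₂, ∃ i < 25, ∃ u ∈ U, u ^ 2 ^ i = x) → 18 ≤ finrank (ZMod 2) U) ∧
    (∀ U : Submodule (ZMod 2) L, (∀ x : L, ∃ i < 25, ∃ u ∈ U, u ^ 2 ^ i = x) →
      21 ≤ finrank (ZMod 2) U) ∧
    ∃ U : Submodule (ZMod 2) L, (∀ x : L, ∃ i < 25, ∃ u ∈ U, u ^ 2 ^ i = x) ∧
      finrank (ZMod 2) U = 21 := by
  refine ⟨W1 L, W2 L, fun x hx => ?_, fun x hx => ?_, compl hL, (finrank_W hL).1, (finrank_W hL).2,
    fun U hU h => low_W1 hL U hU h, fun U hU h => low_W2 hL U hU h, fun U h => low_top hL U h, ?_⟩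
  · have := W1_inv 1 hx
    rwa [Fr_pow, pow_one] at this
  · have := W2_inv 1 hx
    rwa [Fr_pow, pow_one] at this
  · obtain ⟨U, hU, h⟩ := exists_cov4 hL
    refine ⟨U, fun x => ?_, hU⟩
    obtain ⟨i, hi, hx⟩ := h x
    by_cases h0 : i = 0
    · refine ⟨0, by norm_num, x, ?_, by simp⟩
      rw [h0] at hx
      simpa using hx
    · refine ⟨25 - i, by omega, _, hx, ?_⟩
      rw [← Fr_pow, comm_pow, show 25 - i + i = 25 by omega, Fr_25 hL]

end

end Q202.CCov
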