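import Pool.Agent.Q202.CCov.Lin

set_option autoImplicit false

/-!
# No subspace of codimension three covers
-/

namespace Q202.CCov

open Polynomial Module

section

variable {N : Type*} [AddCommGroup N] [Module (ZMod 2) N] {T : Module.End (ZMod 2) N}
  (hT : ∀ x : N, x + (T ^ 5) x + (T ^ 10) x + (T ^ 15) x + (T ^ 20) x = 0)

include hT

theorem cls (ℓ : Dual (ZMod 2) N) (x : N) (r : ℕ) :
    ℓ ((T ^ r) x) + ℓ ((T ^ (r + 5)) x) + ℓ ((T ^ (r + 10)) x) + ℓ ((T ^ (r + 15)) x) +
      ℓ ((T ^ (r + 20)) x) = 0 := by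
  have h1 := congrArg ℓ (hT ((T ^ r) x))
  simp only [map_add, map_zero, ← Module.End.mul_apply, ← pow_add] at h1
  rw [add_comm 5 r, add_comm 10 r, add_comm 15 r, add_comm 20 r] at h1
  exact h1

variable [FiniteDimensional (ZMod 2) N] (hN : finrank (ZMod 2) N = 20)

include hN

theorem exists_rep {ℓ : Dual (ZMod 2) N} (hℓ : ℓ ≠ 0) (m : Dual (ZMod 2) N) :
    ∃ v : ℕ → ZMod 2, (∀ r < 5, v (r + 20) = v r + (v (r + 5) + (v (r + 10) + v (r + 15)))) ∧
      ∀ x, m x = ∑ t ∈ Finset.range 25, v t * ℓ ((T ^ t) x) := by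
  obtain ⟨β, hβ⟩ := exists_coeff hT hN hℓ m
  obtain ⟨b, hb⟩ : ∃ b : ℕ → ZMod 2, b = fun t => if h : t < 20 then β ⟨t, h⟩ else 0 := ⟨_, rfl⟩
  have hb20 : ∀ t, 20 ≤ t → b t = 0 := by
    intro t ht
    rw [hb]
    exact dif_neg (by omega)
  have hm : ∀ x, m x = ∑ t ∈ Finset.range 20, b t * ℓ ((T ^ t) x) := by
    intro x
    rw [hβ, Finset.sum_range]
    refine Finset.sum_congr rfl fun t _ => ?_
    rw [hb]
    simp
  obtain ⟨S, hS⟩ : ∃ S : ℕ → ZMod 2, S = fun r => b r + (b (r + 5) + (b (r + 10) + b (r + 15))) :=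
    ⟨_, rfl⟩
  refine ⟨fun t => b t + S (t % 5), ?_, ?_⟩
  · intro r hr
    have e0 : r % 5 = r := Nat.mod_eq_of_lt hr
    have e5 : (r + 5) % 5 = r := by omega
    have e10 : (r + 10) % 5 = r := by omega
    have e15 : (r + 15) % 5 = r := by omega
    have e20 : (r + 20) % 5 = r := by omega
    simp only [e0, e5, e10, e15, e20, hb20 (r + 20) (by omega)]
    have h2 : (2 : ZMod 2) = 0 := rfl
    rw [hS]
    linear_combination (-(2 : ZMod 2) * (b r + b (r + 5) + b (r + 10) + b (r + 15))) * h2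
  · intro x
    have h0 := cls hT ℓ x 0
    have h1 := cls hT ℓ x 1
    have h2 := cls hT ℓ x 2
    have h3 := cls hT ℓ x 3
    have h4 := cls hT ℓ x 4
    rw [hm]
    simp only [Finset.sum_range_succ, Finset.sum_range_zero]
    norm_num [hb20] at h0 h1 h2 h3 h4 ⊢
    linear_combination (-S 0) * h0 + (-S 1) * h1 + (-S 2) * h2 + (-S 3) * h3 + (-S 4) * h4

theorem exists_rep5 {ℓ : Dual (ZMod 2) N} (hℓ : ℓ ≠ 0) (m : Dual (ZMod 2) N) :
    ∃ (ε : ZMod 2) (v : ℕ → ZMod 2), v 5 = 0 ∧
      (∀ r < 5, v (r + 20) = v r + (v (r + 5) + (v (r + 10) + v (r + 15)))) ∧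
      ∀ x, m x + ε * ℓ x = ∑ t ∈ Finset.range 25, v t * ℓ ((T ^ t) x) := by
  obtain ⟨v, hv, hm⟩ := exists_rep hT hN hℓ m
  have h2 : (2 : ZMod 2) = 0 := rfl
  refine ⟨v 5, fun t => v t + v 5 * (if t = 5 ∨ t = 10 ∨ t = 15 ∨ t = 20 then 1 else 0), ?_, ?_, ?_⟩
  · norm_num
    linear_combination (v 5) * h2
  · intro r hr
    have h := hv r hr
    interval_cases r <;> norm_num at h ⊢
    · linear_combination h - (v 5) * h2
    · exact h
    · exact h
    · exact h
    · exact h
  · intro x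
    have h0 := cls hT ℓ x 0
    rw [hm]
    simp only [Finset.sum_range_succ, Finset.sum_range_zero]
    norm_num at h0 ⊢
    linear_combination (-(v 5)) * h0 + (v 5 * ℓ x) * h2

/-- Conversion to Booleans. -/
def bo (a : ZMod 2) : Bool := decide (a = 1)

omit hT [FiniteDimensional (ZMod 2) N] hN in
theorem bo_add : ∀ a b : ZMod 2, bo (a + b) = xor (bo a) (bo b) := by decide

omit hT [FiniteDimensional (ZMod 2) N] hN in
theorem bo_zero : bo 0 = false := by decide

omit hT [FiniteDimensional (ZMod 2) N] hN in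
theorem bo_inj : ∀ a b : ZMod 2, bo a = bo b → a = b := by decide

omit hT [FiniteDimensional (ZMod 2) N] hN in
theorem bo_rowB (v : ℕ → ZMod 2) (i : ℕ) (Z : List ℕ) :
    rowB (fun t => bo (v t)) i Z = bo ((Z.map fun z => v ((z + 25 - i) % 25)).sum) := by
  induction Z with
  | nil => simp [rowB, bo_zero]
  | cons z l ih => rw [rowB, ih, List.map_cons, List.sum_cons, bo_add]

omit hT [FiniteDimensional (ZMod 2) N] hN in
theorem shift_sum (v : ℕ → ZMod 2)
    (hv : ∀ r < 5, v (r + 20) = v r + (v (r + 5) + (v (r + 10) + v (r + 15))))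
    (Z : List ℕ) (hZ : ∀ z ∈ Z, z < 25) (hn : Z.Nodup) (i : ℕ) (hi : i < 25) :
    ∑ t ∈ Finset.range 25, v t * (if (t + i) % 25 ∈ Z then 0 else 1) =
      (Z.map fun z => v ((z + 25 - i) % 25)).sum := by
  have h2 : (2 : ZMod 2) = 0 := rfl
  have hz : ∑ t ∈ Finset.range 25, v t = 0 := by
    have h0 := hv 0 (by norm_num)
    have h1 := hv 1 (by norm_num)
    have h2' := hv 2 (by norm_num)
    have h3 := hv 3 (by norm_num)
    have h4 := hv 4 (by norm_num)
    simp only [Finset.sum_range_succ, Finset.sum_range_zero]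
    norm_num at h0 h1 h2' h3 h4 ⊢
    rw [h0, h1, h2', h3, h4]
    linear_combination (v 0 + v 1 + v 2 + v 3 + v 4 + v 5 + v 6 + v 7 + v 8 + v 9 + v 10 + v 11 +
      v 12 + v 13 + v 14 + v 15 + v 16 + v 17 + v 18 + v 19) * h2
  have e1 : ∀ t, v t * (if (t + i) % 25 ∈ Z then 0 else 1) =
      v t + v t * (if (t + i) % 25 ∈ Z then 1 else 0) := by
    intro t
    split_ifs
    · linear_combination (-(v t)) * h2
    · ring
  rw [Finset.sum_congr rfl fun t _ => e1 t, Finset.sum_add_distrib, hz, zero_add,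
    ← List.sum_toFinset _ hn]
  have e2 : ∑ s ∈ Finset.range 25, v ((s + 25 - i) % 25) * (if s ∈ Z then 1 else 0) =
      ∑ s ∈ Z.toFinset, v ((s + 25 - i) % 25) := by
    simp only [mul_ite, mul_one, mul_zero]
    rw [← Finset.sum_filter]
    refine Finset.sum_congr ?_ fun _ _ => rfl
    ext s
    simp only [Finset.mem_filter, Finset.mem_range, List.mem_toFinset]
    exact ⟨fun h => h.2, fun h => ⟨hZ s h, h⟩⟩
  rw [← e2]
  refine Finset.sum_nbij' (fun t => (t + i) % 25) (fun s => (s + 25 - i) % 25) ?_ ?_ ?_ ?_ ?_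
  · intro t _
    exact Finset.mem_range.2 (Nat.mod_lt _ (by norm_num))
  · intro t _
    exact Finset.mem_range.2 (Nat.mod_lt _ (by norm_num))
  · intro t ht
    have := Finset.mem_range.1 ht
    show ((t + i) % 25 + 25 - i) % 25 = t
    omega
  · intro t ht
    have := Finset.mem_range.1 ht
    show ((t + 25 - i) % 25 + i) % 25 = t
    omega
  · intro t ht
    have := Finset.mem_range.1 ht
    have h : ((t + i) % 25 + 25 - i) % 25 = t := by omega
    rw [h]

omit hT [FiniteDimensional (ZMod 2) N] hN in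
theorem val_shift {ℓ : Dual (ZMod 2) N} {W : ZMod 25 → ZMod 2} {x : N}
    (hx : ∀ i : ℕ, ℓ ((T ^ i) x) = W i) (Z : List ℕ) (hW : ∀ s : ZMod 25, W s = if s.val ∈ Z then 0 else 1)
    (hZ : ∀ z ∈ Z, z < 25) (hn : Z.Nodup) (v : ℕ → ZMod 2)
    (hv : ∀ r < 5, v (r + 20) = v r + (v (r + 5) + (v (r + 10) + v (r + 15)))) (i : ℕ) :
    bo (∑ t ∈ Finset.range 25, v t * ℓ ((T ^ t) ((T ^ i) x))) =
      rowB (fun t => bo (v t)) (i % 25) Z := by
  have hi : i % 25 < 25 := Nat.mod_lt _ (by norm_num)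
  have h1 := bo_rowB v (i % 25) Z
  have h2 := shift_sum v hv Z hZ hn (i % 25) hi
  have h3 : ∑ t ∈ Finset.range 25, v t * ℓ ((T ^ t) ((T ^ i) x)) =
      ∑ t ∈ Finset.range 25, v t * (if (t + i % 25) % 25 ∈ Z then 0 else 1) := by
    refine Finset.sum_congr rfl fun t _ => ?_
    have h4 : (T ^ t) ((T ^ i) x) = (T ^ (t + i)) x := by rw [pow_add]; rfl
    have h5 : (t + i) % 25 = (t + i % 25) % 25 := by omega
    rw [h4, hx, hW, ZMod.val_natCast, h5]
  rw [h1, ← h2, h3]

omit hT [FiniteDimensional (ZMod 2) N] hN in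
theorem cls_W (g : ℕ → ZMod 2) (hg : ∀ q < 5, g q + g (q + 5) + g (q + 10) + g (q + 15) +
    g (q + 20) = 0) (k : ℕ) (hk : k < 25) :
    g k + g ((k + 5) % 25) + g ((k + 10) % 25) + g ((k + 15) % 25) + g ((k + 20) % 25) = 0 := by
  have h0 := hg 0 (by norm_num)
  have h1 := hg 1 (by norm_num)
  have h2 := hg 2 (by norm_num)
  have h3 := hg 3 (by norm_num)
  have h4 := hg 4 (by norm_num)
  norm_num at h0 h1 h2 h3 h4
  interval_cases k <;> norm_num <;> first
    | linear_combination h0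
    | linear_combination h1
    | linear_combination h2
    | linear_combination h3
    | linear_combination h4

omit hT [FiniteDimensional (ZMod 2) N] hN in
theorem xor_cls : ∀ a b c d e : Bool, xor a (xor b (xor c (xor d e))) = true →
    ((if a = true then (0 : ZMod 2) else 1) + (if b = true then 0 else 1) + (if c = true then 0 else 1) +
      (if d = true then 0 else 1) + (if e = true then 0 else 1)) = 0 := by
  decide

theorem no_cover (U : Submodule (ZMod 2) N) (hU : finrank (ZMod 2) U ≤ 17) :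
    ∃ x, ∀ i : ℕ, (T ^ i) x ∉ U := by
  have h1 := Subspace.finrank_add_finrank_dualAnnihilator_eq U
  obtain ⟨f, hf⟩ := exists_linearIndependent_of_le_finrank (R := ZMod 2) (M := U.dualAnnihilator)
    (n := 3) (by omega)
  have key : ∀ a b c : ZMod 2, (∀ x, a * (f 0 : Dual (ZMod 2) N) x + b * (f 1 : Dual (ZMod 2) N) x +
      c * (f 2 : Dual (ZMod 2) N) x = 0) → a = 0 ∧ b = 0 ∧ c = 0 := by
    intro a b c h
    rw [Fintype.linearIndependent_iff] at hf
    have h2 := hf ![a, b, c] (by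
      apply Subtype.ext
      ext x
      rw [Fin.sum_univ_three]
      simpa using h x)
    exact ⟨by simpa using h2 0, by simpa using h2 1, by simpa using h2 2⟩
  have hann : ∀ (j : Fin 3) (u : N), u ∈ U → (f j : Dual (ZMod 2) N) u = 0 := by
    intro j u hu
    exact (Submodule.mem_dualAnnihilator _).1 (f j).2 u hu
  have hℓ : (f 0 : Dual (ZMod 2) N) ≠ 0 := by
    intro h
    have := (key 1 0 0 (by intro x; rw [h]; simp)).1
    exact one_ne_zero this
  obtain ⟨ε1, v, hv5, hv, hv1⟩ := exists_rep5 hT hN hℓ (f 1 : Dual (ZMod 2) N)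
  obtain ⟨ε2, w, hw5, hw, hw1⟩ := exists_rep5 hT hN hℓ (f 2 : Dual (ZMod 2) N)
  obtain ⟨Z, hZv, hZ⟩ := comb (fun t => bo (v t)) (fun t => bo (w t)) (by simp only [hv5, bo_zero])
    (by simp only [hw5, bo_zero]) (by
      intro r hr
      simp only [hv r hr, bo_add]) (by
      intro r hr
      simp only [hw r hr, bo_add]) (by
      by_contra hcon
      push Not at hcon
      have hz : ∀ t ∈ Finset.range 25, v t = 0 := by
        intro t ht
        exact bo_inj _ _ (by rw [bo_zero]; simpa using hcon t (Finset.mem_range.1 ht))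
      have := (key ε1 1 0 (by
        intro x
        have h3 := hv1 x
        rw [Finset.sum_eq_zero (fun t ht => by rw [hz t ht, zero_mul])] at h3
        linear_combination h3)).2.1
      exact one_ne_zero this) (by
      by_contra hcon
      push Not at hcon
      have hz : ∀ t ∈ Finset.range 25, w t = 0 := by
        intro t ht
        exact bo_inj _ _ (by rw [bo_zero]; simpa using hcon t (Finset.mem_range.1 ht))
      have := (key ε2 0 1 (by
        intro x
        have h3 := hw1 x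
        rw [Finset.sum_eq_zero (fun t ht => by rw [hz t ht, zero_mul])] at h3
        linear_combination h3)).2.2
      exact one_ne_zero this) (by
      by_contra hcon
      push Not at hcon
      have hz : ∀ t ∈ Finset.range 25, v t = w t := by
        intro t ht
        exact bo_inj _ _ (hcon t (Finset.mem_range.1 ht))
      have := (key (ε1 - ε2) 1 (-1) (by
        intro x
        have h3 := hv1 x
        have h4 := hw1 x
        rw [Finset.sum_congr rfl (fun t ht => by rw [hz t ht])] at h3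
        linear_combination h3 - h4)).2.1
      exact one_ne_zero this)
  obtain ⟨hZ25, hZn, hZc⟩ : (∀ z ∈ Z, z < 25) ∧ Z.Nodup ∧
      ∀ r ∈ [0, 1, 2, 3, 4], xor (decide (r ∈ Z)) (xor (decide (r + 5 ∈ Z))
      (xor (decide (r + 10 ∈ Z)) (xor (decide (r + 15 ∈ Z)) (decide (r + 20 ∈ Z))))) = true := by
    unfold valid at hZv
    rw [Bool.and_eq_true, Bool.and_eq_true, List.all_eq_true, List.all_eq_true] at hZv
    exact ⟨fun z hz => by simpa using hZv.1.1 z hz, by simpa using hZv.1.2, hZv.2⟩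
  obtain ⟨W, hW⟩ : ∃ W : ZMod 25 → ZMod 2, ∀ s, W s = if s.val ∈ Z then 0 else 1 := ⟨_, fun _ => rfl⟩
  obtain ⟨x, hx⟩ := exists_seq hT hN hℓ W (by
    intro r
    have e5 : (r + 5).val = (r.val + 5) % 25 := by rw [ZMod.val_add]; rfl
    have e10 : (r + 10).val = (r.val + 10) % 25 := by rw [ZMod.val_add]; rfl
    have e15 : (r + 15).val = (r.val + 15) % 25 := by rw [ZMod.val_add]; rfl
    have e20 : (r + 20).val = (r.val + 20) % 25 := by rw [ZMod.val_add]; rfl
    simp only [hW, e5, e10, e15, e20]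
    refine cls_W (fun k => if k ∈ Z then 0 else 1) (fun q hq => ?_) r.val (ZMod.val_lt r)
    have h := xor_cls _ _ _ _ _ (hZc q (by interval_cases q <;> simp))
    simpa only [decide_eq_true_eq] using h)
  refine ⟨x, fun i hi => ?_⟩
  have hi25 : i % 25 < 25 := Nat.mod_lt _ (by norm_num)
  by_cases hiZ : i % 25 ∈ Z
  · rcases hZ (i % 25) hiZ with h | h
    · rw [← val_shift hx Z hW hZ25 hZn v hv i, ← hv1, hann 1 _ hi, hann 0 _ hi] at h
      simp [bo_zero] at h
    · rw [← val_shift hx Z hW hZ25 hZn w hw i, ← hw1, hann 2 _ hi, hann 0 _ hi] at h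
      simp [bo_zero] at h
  · have h := hx i
    rw [hann 0 _ hi, hW, ZMod.val_natCast, if_neg hiZ] at h
    exact zero_ne_one h

end

end Q202.CCov
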