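import Mathlib

set_option autoImplicit false

/-!
# Truth tables as natural numbers

A Boolean function of `m` variables is stored in a natural number with `2 ^ m` binary digits, so that
the logical operations are single operations on natural numbers.
-/

namespace Q202.CCov

/-- Truth table of the variable `i` among `m` variables. -/
def tt : ℕ → ℕ → ℕ
  | 0, _ => 0
  | m + 1, i => if i = m then 2 ^ (2 ^ m) * (2 ^ (2 ^ m) - 1) else 2 ^ (2 ^ m) * tt m i + tt m i

theorem tt_lt (m i : ℕ) : tt m i < 2 ^ 2 ^ m := by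
  induction m with
  | zero => simp [tt]
  | succ m ih =>
    rw [tt]
    have h1 : (2 : ℕ) ^ 2 ^ (m + 1) = 2 ^ 2 ^ m * 2 ^ 2 ^ m := by
      rw [← pow_add]
      congr 1
      rw [pow_succ]
      ring
    have h2 : 0 < (2 : ℕ) ^ 2 ^ m := by positivity
    split_ifs
    · rw [h1]
      exact Nat.mul_lt_mul_of_pos_left (by omega) h2
    · rw [h1]
      have h3 : tt m i + 1 ≤ 2 ^ 2 ^ m := ih
      calc 2 ^ 2 ^ m * tt m i + tt m i < 2 ^ 2 ^ m * tt m i + 2 ^ 2 ^ m * 1 := by omega
        _ = 2 ^ 2 ^ m * (tt m i + 1) := by ring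
        _ ≤ _ := Nat.mul_le_mul_left _ h3

theorem testBit_tt (m : ℕ) : ∀ i j : ℕ, i < m → j < 2 ^ m → (tt m i).testBit j = j.testBit i := by
  induction m with
  | zero => intro i j h; omega
  | succ m ih =>
    intro i j hi hj
    rw [tt]
    have hp : (2 : ℕ) ^ (m + 1) = 2 ^ m + 2 ^ m := by rw [pow_succ]; ring
    split_ifs with h
    · subst h
      have h0 := Nat.testBit_two_pow_mul_add (i := 2 ^ i) (2 ^ 2 ^ i - 1) (b := 0) (by positivity) j
      rw [add_zero] at h0
      rw [h0]
      split_ifs with h1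
      · rw [Nat.zero_testBit, Nat.testBit_lt_two_pow h1]
      · rw [Nat.testBit_two_pow_sub_one]
        have h2 : j = 2 ^ i + (j - 2 ^ i) := by omega
        rw [h2, Nat.testBit_two_pow_add_eq, Nat.testBit_lt_two_pow (by omega)]
        simp
        omega
    · have h0 := Nat.testBit_two_pow_mul_add (i := 2 ^ m) (tt m i) (b := tt m i) (tt_lt m i) j
      rw [h0]
      split_ifs with h1
      · exact ih i j (by omega) h1
      · rw [ih i (j - 2 ^ m) (by omega) (by omega)]
        have h2 : j = 2 ^ m + (j - 2 ^ m) := by omega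
        conv_rhs => rw [h2]
        rw [Nat.testBit_two_pow_add_gt (by omega)]

/-- The sum over `z ∈ l` of the functions number `z - i`. -/
def row (X : ℕ → ℕ) (i : ℕ) : List ℕ → ℕ
  | [] => 0
  | z :: l => X ((z + 25 - i) % 25) ^^^ row X i l

/-- The same for Boolean values. -/
def rowB (b : ℕ → Bool) (i : ℕ) : List ℕ → Bool
  | [] => false
  | z :: l => xor (b ((z + 25 - i) % 25)) (rowB b i l)

theorem row_testBit (X : ℕ → ℕ) (i j : ℕ) (l : List ℕ) :
    (row X i l).testBit j = rowB (fun t => (X t).testBit j) i l := by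
  induction l with
  | nil => simp [row, rowB]
  | cons z l ih => rw [row, rowB, Nat.testBit_xor, ih]

/-- All rows with index in `l` are one. -/
def cov (X : ℕ → ℕ) (Z : List ℕ) (F : ℕ) : List ℕ → ℕ
  | [] => F
  | i :: l => row X i Z &&& cov X Z F l

theorem cov_testBit (X : ℕ → ℕ) (Z : List ℕ) (F j : ℕ) (l : List ℕ) (h : (cov X Z F l).testBit j = true) :
    ∀ i ∈ l, rowB (fun t => (X t).testBit j) i Z = true := by
  induction l with
  | nil => simp
  | cons i l ih =>
    rw [cov, Nat.testBit_and, Bool.and_eq_true, row_testBit] at h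
    intro k hk
    rcases List.mem_cons.1 hk with rfl | hk
    · exact h.1
    · exact ih h.2 k hk

/-- Some set of zeros in the list works. -/
def anyc (X : ℕ → ℕ) (F : ℕ) : List (List ℕ) → ℕ
  | [] => 0
  | Z :: l => cov X Z F Z ||| anyc X F l

theorem anyc_testBit (X : ℕ → ℕ) (F j : ℕ) (l : List (List ℕ)) (h : (anyc X F l).testBit j = true) :
    ∃ Z ∈ l, ∀ i ∈ Z, rowB (fun t => (X t).testBit j) i Z = true := by
  induction l with
  | nil => simp [anyc] at h
  | cons Z l ih =>
    rw [anyc, Nat.testBit_or, Bool.or_eq_true] at h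
    rcases h with h | h
    · exact ⟨Z, by simp, cov_testBit X Z F j Z h⟩
    · obtain ⟨Z', hZ', h'⟩ := ih h
      exact ⟨Z', by simp [hZ'], h'⟩

/-- For every `i` in `l` one of the two rows is one. -/
def cov2 (X Y : ℕ → ℕ) (Z : List ℕ) (F : ℕ) : List ℕ → ℕ
  | [] => F
  | i :: l => (row X i Z ||| row Y i Z) &&& cov2 X Y Z F l

theorem cov2_testBit (X Y : ℕ → ℕ) (Z : List ℕ) (F j : ℕ) (l : List ℕ)
    (h : (cov2 X Y Z F l).testBit j = true) :
    ∀ i ∈ l, rowB (fun t => (X t).testBit j) i Z = true ∨ rowB (fun t => (Y t).testBit j) i Z = true := by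
  induction l with
  | nil => simp
  | cons i l ih =>
    rw [cov2, Nat.testBit_and, Bool.and_eq_true, Nat.testBit_or, Bool.or_eq_true, row_testBit,
      row_testBit] at h
    intro k hk
    rcases List.mem_cons.1 hk with rfl | hk
    · exact h.1
    · exact ih h.2 k hk

/-- Some set of zeros in the list works for the pair. -/
def anyc2 (X Y : ℕ → ℕ) (F : ℕ) : List (List ℕ) → ℕ
  | [] => 0
  | Z :: l => cov2 X Y Z F Z ||| anyc2 X Y F l

theorem anyc2_testBit (X Y : ℕ → ℕ) (F j : ℕ) (l : List (List ℕ))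
    (h : (anyc2 X Y F l).testBit j = true) :
    ∃ Z ∈ l, ∀ i ∈ Z, rowB (fun t => (X t).testBit j) i Z = true ∨
      rowB (fun t => (Y t).testBit j) i Z = true := by
  induction l with
  | nil => simp [anyc2] at h
  | cons Z l ih =>
    rw [anyc2, Nat.testBit_or, Bool.or_eq_true] at h
    rcases h with h | h
    · exact ⟨Z, by simp, cov2_testBit X Y Z F j Z h⟩
    · obtain ⟨Z', hZ', h'⟩ := ih h
      exact ⟨Z', by simp [hZ'], h'⟩

/-- Some of the functions `u t`, `t ∈ l`, is one. -/
def orl (u : ℕ → ℕ) : List ℕ → ℕ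
  | [] => 0
  | t :: l => u t ||| orl u l

theorem orl_testBit (u : ℕ → ℕ) (j : ℕ) (l : List ℕ) :
    (orl u l).testBit j = true ↔ ∃ t ∈ l, (u t).testBit j = true := by
  induction l with
  | nil => simp [orl]
  | cons t l ih =>
    rw [orl, Nat.testBit_or, Bool.or_eq_true, ih]
    simp

theorem full_testBit {m j : ℕ} (hj : j < 2 ^ m) : ((2 : ℕ) ^ 2 ^ m - 1).testBit j = true := by
  rw [Nat.testBit_two_pow_sub_one]
  simpa using hj

end Q202.CCov
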